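import Pool.Agent.W23.DC.Defs

/-!
PL project (helper23): Chen's theorem in dense sets of primes with the sharp number of exceptions.

Every `St_X` below is the statement of one task; the doc comment is its complete proof.  The file of
a task is `Pool/Agent/W<yourseat>/PL/<Name>.lean`, the theorem has the name given in the comment.
-/

namespace Pool.Agent.W23.PL

open Finset
open Pool.Agent.H442R2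
open Pool.Agent.H442R2.KF
open Pool.Agent.W23.DC

open Classical in
/-- the primes in `[(log N)^B, N^ε₁)` -/
noncomputable def P1 (N B : ℕ) (ε₁ : ℝ) : Finset ℕ :=
  (Icc 1 N).filter (fun p => p.Prime ∧ Real.log N ^ B ≤ (p : ℝ) ∧ tt N p < ε₁)

/-- `∏ (1 - 1/p)` -/
noncomputable def VV (P : Finset ℕ) : ℝ := ∏ p ∈ P, (1 - 1 / (p : ℝ))

open Classical in
/-- `1` if no element of `P` divides `m` -/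
noncomputable def xx (P : Finset ℕ) (m : ℤ) : ℝ := if ∀ p ∈ P, ¬ (p : ℤ) ∣ m then 1 else 0

/-- coefficients on the squarefree products of elements of `P` up to `D` -/
structure DW (P : Finset ℕ) (D : ℕ) (U : ℝ) (th : ℕ → ℝ) : Prop where
  bd : ∀ e, |th e| ≤ U
  supp : ∀ e, th e ≠ 0 → Squarefree e ∧ e ≤ D ∧ ∀ p : ℕ, p.Prime → p ∣ e → p ∈ P

open Classical in
/-- `∑_{e | m} θ_e` -/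
noncomputable def Ev (th : ℕ → ℝ) (D : ℕ) (m : ℤ) : ℝ :=
  ∑ e ∈ Icc 1 D, th e * (if (e : ℤ) ∣ m then 1 else 0)

/-- `∑ θ_e / e` -/
noncomputable def hat (th : ℕ → ℝ) (D : ℕ) : ℝ := ∑ e ∈ Icc 1 D, th e / e

/-- the quadratic form of the Selberg weights -/
noncomputable def LF (lam : ℕ → ℝ) (z : ℕ) : ℝ :=
  ∑ q₁ ∈ Icc 1 z, ∑ q₂ ∈ Icc 1 z, lam q₁ * lam q₂ / (Nat.lcm q₁ q₂ : ℝ)

/-- **FLW** (theorem `FLW : St_FLW`).  The fundamental lemma (Brun–Hooley), super-exponential rate.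

Proof.  WLOG `η₀ ≤ 1`, `A ≥ 1`.  `P = P1 N B ε₁`, `Z = N^ε₁`, blocks
`P_j = {p ∈ P : Z^(2^-(j+1)) ≤ p < Z^(2^-j)}`, `0 ≤ j < J`, `J = ⌈log₂ log N⌉ + 1` or any `J` with
`Z^(2^-J) ≤ (log N)^B` and `J + 1 ≤ log N` (`N` large).  By Mertens (in the tree:
`Pool.Agent.Helper256.KM.mertens_inv`, or `Pool.Agent.W378.DC.MP`) and as all elements of `P` exceed
`(log N)^B → ∞`: `L_j = ∑_{p ∈ P_j} 1/p ≤ 7/10` and `V_j = ∏_{p ∈ P_j} (1 - 1/p) ≥ 1/4` for `N ≥ N₀`.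
Let `b ≥ 1` be an integer, `b_j = b + j`,
`T_j(m) = ∑_{U ⊆ P_j, |U| ≤ 2 b_j} (-1)^|U| 1_{U | m}`,
`E_j(m) = ∑_{U ⊆ P_j, |U| = 2 b_j + 1} 1_{U | m}` (`1_{U | m}`: all elements of `U` divide `m`), and
`x_j(m) = 1` if no element of `P_j` divides `m`.  Bonferroni (`Pool.Agent.Helper112.LP.Kba.bh_local`,
`bh_trunc`): `x_j ≤ T_j ≤ x_j + E_j`.  Let `th` be the coefficients of `∏_j T_j` and `dl` those of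
`∑_k E_k ∏_{j ≠ k} T_j`.  Then `xx P = ∏ x_j ≤ ∏ T_j` and (telescoping, `bh_prod_sub`; note
`0 ≤ x_j ≤ T_j`) `∏ T_j - ∏ x_j ≤ ∑_k (T_k - x_k) ∏_{j ≠ k} T_j ≤ ∑_k E_k ∏_{j ≠ k} T_j`.
Level: an element `e` of the supports is squarefree, composed of elements of `P`, with
`log e ≤ ∑_j (2 b_j + 1) 2^-j log Z ≤ (4 b + 6) ε₁ log N`, so choose `b = ⌊(η₀/ε₁ - 6)/4⌋` (`≥ 1` for
small `ε₁`).  `|th e| ≤ 1`, `|dl e| ≤ J ≤ log N` (each `e` has a unique decomposition along the blocks).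
Main terms: `hat th = ∏_j T̂_j`, `T̂_j = ∑_{|U| ≤ 2 b_j} (-1)^|U| ∏_{p ∈ U} 1/p`, and (Bonferroni for
weights, `Kbh.bh_bonf`, `bhE_le`) `V_j ≤ T̂_j ≤ V_j + Ê_j`, `Ê_j ≤ L_j^(2b_j+1)/(2b_j+1)! ≤
1/(2b_j+1)!`.  So `T̂_j ≤ V_j (1 + 4/(2b_j+1)!)`, `∏_j (1 + 4/(2b_j+1)!) ≤ exp(8/(2b+1)!) ≤
1 + 16/(2b+1)!`, `0 ≤ hat th - V ≤ 16 V/(2b+1)!`, and `hat dl = ∑_k Ê_k ∏_{j≠k} T̂_j ≤
V · 2 ∑_k 4/(2b_k+1)! ≤ 16 V/(2b+1)!`.  Finally `16/(2b+1)! ≤ exp(-A/ε₁)` for `ε₁ ≤ ε*(η₀, A)`: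
`2b + 1 ≥ η₀/(2ε₁) - 5 ≥ η₀/(4ε₁)` and `k! ≥ (k/e)^k`. -/
def St_FLW : Prop := ∀ η₀ A : ℝ, 0 < η₀ → 0 < A → ∃ εs : ℝ, 0 < εs ∧ ∀ ε₁ : ℝ, 0 < ε₁ → ε₁ ≤ εs →
    ∀ B : ℕ, 1 ≤ B → ∃ N₀ : ℕ, ∀ N : ℕ, N₀ ≤ N → ∀ D : ℕ, D = ⌊(N : ℝ) ^ η₀⌋₊ →
    ∃ th dl : ℕ → ℝ, DW (P1 N B ε₁) D (Real.log N) th ∧ DW (P1 N B ε₁) D (Real.log N) dl ∧
      (∀ m : ℤ, xx (P1 N B ε₁) m ≤ Ev th D m ∧ Ev th D m - xx (P1 N B ε₁) m ≤ Ev dl D m) ∧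
      |hat th D - VV (P1 N B ε₁)| ≤ Real.exp (-(A / ε₁)) * VV (P1 N B ε₁) ∧
      |hat dl D| ≤ Real.exp (-(A / ε₁)) * VV (P1 N B ε₁)

/-- **COR** (theorem `COR (hGS : BX.St_GS) : St_COR`; import `Pool.Agent.H442R2.KF.Poi`,
`KF.Summ`).  Correlations of divisor sums.

Proof.  Write `q = lcm q₁ q₂` and `S(q₁,q₂,e,e') = ∑' Wt 1_{q | n} 1_{e | n-a} 1_{e' | n-a'}`, so the
sum is `∑ λ_{q₁} λ_{q₂} θ_e θ'_{e'} S` over `q₁, q₂ ≤ z`, `e, e' ≤ D` (all squarefree; the moduli are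
`≤ N^(1/20)`).  Let `M = lcm(q, e, e') ≤ N^(1/5)`.  The conditions on `n` have either no solution or
define one class modulo `M`.
(1) `q, e, e'` pairwise coprime: `S = N/(q e e') + O(N^(-5))` (`KF.poisson_trunc` with `J = 0`, as
`M log N ≤ N`; Chinese remainder theorem).
(2) otherwise and `S ≠ 0`: some prime `l` divides two of `q, e, e'`, so `l ∈ P`, `l ≥ y`, and a
solution `n` shows that `l` divides `a`, `a'` or `a - a'`.  The number of such `l ≥ 2` is at most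
`log₂ (16 N³) ≤ 8 log N`.  `S ≤ 4 (N/M + 1) ≤ 8 N/M` (GS), `l ∣ M`, and
`∑ 1/lcm(q₁,q₂,e,e')` over squarefree `q₁,q₂,e,e' ≤ N^(1/20)` with `l | lcm` is at most
`(15/l) ∏_{p ≤ N, p ≠ l} (1 + 15/p) ≤ (15/l) exp(15 ∑_{p ≤ N} 1/p) ≤ C (log N)^15/l` (each squarefree
number is the product of its prime factors; each prime divides one of the `15` nonempty subsets of
the four numbers).  So the total of (2) is `≤ C U² N (log N)^16/y`.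
(3) The main term: `N LF hat hat = ∑ λλθθ' N/(q e e')` over all quadruples; those which are not
pairwise coprime contribute at most
`U² N ∑_{l ≥ y} ∑_{l | two of q,e,e'} 1/(q e e') ≤ C U² N (log N)^5 ∑_{l ≥ y} 1/l² ≤
C U² N (log N)^5/y` (`∑_{q₁,q₂} 1/lcm ≤ exp(3 ∑ 1/p) ≤ C (log N)³`, `∑ 1/e ≤ 1 + log N`).
(4) The errors of (1): `U² z² D² N^(-5) ≤ U²`. -/
def St_COR : Prop := ∃ (C : ℝ) (N₀ : ℕ), 0 < C ∧ ∀ N : ℕ, N₀ ≤ N → ∀ z D : ℕ,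
    (z : ℝ) ≤ (N : ℝ) ^ (1 / 20 : ℝ) → (D : ℝ) ≤ (N : ℝ) ^ (1 / 20 : ℝ) → ∀ lam : ℕ → ℝ,
    SWs z lam → ∀ (P : Finset ℕ) (y : ℝ), 2 ≤ y → (∀ p ∈ P, p.Prime ∧ y ≤ (p : ℝ)) →
    ∀ (U : ℝ) (th th' : ℕ → ℝ), 0 ≤ U → DW P D U th → DW P D U th' → ∀ a a' : ℤ, a ≠ 0 → a' ≠ 0 →
    a ≠ a' → |(a : ℝ)| ≤ 2 * N → |(a' : ℝ)| ≤ 2 * N →
    |∑' n : ℤ, Wt N n * BX.nuS lam z n * (Ev th D (n - a) * Ev th' D (n - a')) -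
      N * LF lam z * (hat th D * hat th' D)| ≤ C * U ^ 2 * (N * Real.log N ^ 20 / y + 1)

/-- **PBX** (theorem `PBX : St_PBX`; compare `BX/Rc.lean`, `BX/Pb.lean`, `BX/Ra.lean`).

Proof.  `n = a`: `rf = 0`.  Otherwise `|rf| ≤ #rd(n - a) + ∑_{d rough, d ≤ N} 1/d`.  As in `BX.RC`
(read off the constant in its proof): `#rd ≤ exp(1/ε) (1 + |n|/N)^(1/4)` if `ε log N ≥ 4`.  And
`∑_{d ≤ N, rough} 1/d ≤ ∏_{N^ε < p ≤ N} (1 - 1/p)^(-1) ≤ exp(2 ∑_{N^ε < p ≤ N} 1/p) ≤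
exp(2 log(1/ε) + 2) ≤ exp(4/ε)` for `N ≥ N₀(ε)` (Mertens: `Pool.Agent.Helper256.KM.mertens_inv`). -/
def St_PBX : Prop := ∃ c₁ : ℝ, 0 < c₁ ∧ ∀ ε : ℝ, 0 < ε → ε ≤ 1 → ∃ N₀ : ℕ, ∀ N X : ℕ, N₀ ≤ N →
    X ≤ N → ∀ c : ℕ → ℝ, BX.CofR ((N : ℝ) ^ ε) X c → ∀ a n : ℤ, |(a : ℝ)| ≤ N →
    |BX.rf c X a n| ≤ Real.exp (c₁ / ε) * (1 + |(n : ℝ)| / N) ^ (1 / 4 : ℝ)

/-- `∑_n W(n) 1_{q | n-b} 1_{d | n-a} 1_{d' | n-a'}` -/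
noncomputable def SEb (N : ℕ) (b a a' : ℤ) (q d d' : ℕ) : ℝ :=
  ∑' n : ℤ, if ((q : ℤ) ∣ n - b ∧ (d : ℤ) ∣ n - a ∧ (d' : ℤ) ∣ n - a') then Wt N n else 0

/-- the two cases in which the Kloosterman bound is known -/
def Fc (N : ℕ) (θ δ : ℝ) (c c' : ℕ → ℝ) : Prop :=
  θ ≤ 51 / 100 ∨ ((∀ d, c d ≠ 0 → FX.FacD N θ δ d) ∧ (∀ d, c' d ≠ 0 → FX.FacD N θ δ d))

/-- COU (done by helper23 from `BX.CO` and `DC.COF`) -/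
def St_COU : Prop := ∀ θ δ : ℝ, 0 < θ → θ < 5 / 9 → 0 < δ →
    ∃ (ε₀ η C : ℝ), 0 < ε₀ ∧ 0 < η ∧ 0 < C ∧
    ∀ (N q D0 X : ℕ), 2 ≤ N → 1 ≤ q → Odd q → Squarefree q → (q : ℝ) ≤ (N : ℝ) ^ ε₀ →
    (X : ℝ) ≤ (N : ℝ) ^ θ → 1 ≤ D0 → (X : ℝ) ≤ (N : ℝ) ^ ε₀ * D0 →
    ∀ (a a' : ℤ), |(a : ℝ)| ≤ N → |(a' : ℝ)| ≤ N → a ≠ a' →
    ∀ c c' : ℕ → ℝ, BX.CofO q c → BX.CofO q c' → Fc N θ δ c c' →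
    |∑ d ∈ Ioc D0 X, ∑ d' ∈ (Ioc D0 X).filter (fun d' => Nat.Coprime d d'), c d * c' d' *
      (BX.SE N a a' q d d' - N / (q * d * d'))| ≤ C * (N : ℝ) ^ (1 - η)

/-- **COS** (theorem `COS (hCOU : St_COU) (hRC : BX.St_RC) (hGS : BX.St_GS) : St_COS`).
Shifting the class modulo `q`.

Proof.  `ε₀ = min ε₁ (1/4)`, `ε₁, η₁, C₁` from COU (depend on `θ, δ` only).  Small `N` (`N < N₀`)
trivial (`0 ≤ SEb ≤ ∑ Wt ≤ 4 (N+1)`).  Substituting `n = m + b`: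
`SEb N b a a' q d d' = ∑'_m 1_{q | m} 1_{d | m - (a-b)} 1_{d' | m - (a'-b)} Wt N (m+b)`; COU for
`a - b`, `a' - b` (`|a - b| ≤ N - N^(1/2) + N^ε₀ ≤ N`) bounds the same sum with `Wt N m`.  The
difference: `|Wt N (m+b) - Wt N m| ≤ C (|b|/N) Wt (2N) m` (`|b| ≤ N^(1/4)`; mean value theorem, or
`|exp(-x) - exp(-y)| ≤ |x - y| exp(-min x y)`; `x = π((m+b)/N)²`, `y = π(m/N)²`,
`|x - y| ≤ 7 |b| (|m| + |b|)/N²`, `min x y ≥ π m²/(2N²) - 1`, and `(1 + |m|/N) exp(-π m²/(2N²)) ≤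
C exp(-π m²/(4N²))`).  So the difference is at most
`C (|b|/N) ∑_m Wt (2N) m #{(d, d') : d | m - (a-b), d' | m - (a'-b), c d ≠ 0 ≠ c' d'}`; for
`m ≠ a - b, a' - b` the number is `≤ C (1 + |m|/N)^(1/2)` (RC), and `Wt (2N) m (1 + |m|/(2N)) ≤
2 Wt (4N) m` (GS), sum `≤ C N`; for the two exceptional `m` it is `≤ C X` (RC for the other factor).
Total `≤ C |b| + C X ≤ C N^θ + C N^(1/4)`. -/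
def St_COS : Prop := ∀ θ δ : ℝ, 0 < θ → θ < 5 / 9 → 0 < δ → ∃ ε₀ : ℝ, 0 < ε₀ ∧ ∀ ε : ℝ, 0 < ε →
    ∃ (η C : ℝ), 0 < η ∧ 0 < C ∧
    ∀ (N q D0 X : ℕ), 2 ≤ N → 1 ≤ q → Odd q → Squarefree q → (q : ℝ) ≤ (N : ℝ) ^ ε₀ →
    (X : ℝ) ≤ (N : ℝ) ^ θ → 1 ≤ D0 → (X : ℝ) ≤ (N : ℝ) ^ ε₀ * D0 →
    ∀ (b a a' : ℤ), |(b : ℝ)| ≤ q → |(a : ℝ)| ≤ N - (N : ℝ) ^ (1 / 2 : ℝ) →
    |(a' : ℝ)| ≤ N - (N : ℝ) ^ (1 / 2 : ℝ) → a ≠ a' →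
    ∀ c c' : ℕ → ℝ, BX.CofO q c → BX.CofO q c' → BX.CofR ((N : ℝ) ^ ε) X c →
    BX.CofR ((N : ℝ) ^ ε) X c' → Fc N θ δ c c' →
    |∑ d ∈ Ioc D0 X, ∑ d' ∈ (Ioc D0 X).filter (fun d' => Nat.Coprime d d'), c d * c' d' *
      (SEb N b a a' q d d' - N / (q * d * d'))| ≤ C * (N : ℝ) ^ (1 - η)

/-- **TTC** (theorem `TTC (hCOS : St_COS) : St_TTC`; import `Pool.Agent.H442R2.KF.Poi`, `KF.Summ`).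
The coprime pairs of moduli, one class `b` modulo `q`.

Proof.  `ε₀ = min ε₀' (min (1/10) ((1 - θ)/4))`, `ε₀'` from COS.  Small `N` trivial (`|dl| ≤ 1`,
`∑ Wt ≤ 4 (N+1)`, `X² ≤ N²` pairs).  Open the product: the inner sum over `n` is
`SEb N b a a' q d d' - S₁/d' - S₂/d + S₃/(dd')` with `S₁ = ∑' 1_{q | n-b} 1_{d | n-a} Wt = N/(qd) +
O(N^(-5))` (`q`, `d` coprime by `CofO` if `c d ≠ 0`; Chinese remainder theorem and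
`KF.poisson_trunc` with `J = 0`, `q d ≤ N^(ε₀ + θ)`), similarly `S₂ = N/(qd') + ..`, `S₃ = N/q + ..`.
So it equals `(SEb - N/(qdd')) + O(3 N^(-5))`, and COS. -/
def St_TTC : Prop := ∀ θ δ : ℝ, 0 < θ → θ < 5 / 9 → 0 < δ → ∃ ε₀ η : ℝ, 0 < ε₀ ∧ 0 < η ∧
    ∀ ε : ℝ, 0 < ε → ∃ C : ℝ, 0 < C ∧
    ∀ (N q D0 X : ℕ), 2 ≤ N → 1 ≤ q → Odd q → Squarefree q → (q : ℝ) ≤ (N : ℝ) ^ ε₀ →
    (X : ℝ) ≤ (N : ℝ) ^ θ → 1 ≤ D0 → (X : ℝ) ≤ (N : ℝ) ^ ε₀ * D0 →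
    ∀ (b a a' : ℤ), |(b : ℝ)| ≤ q → |(a : ℝ)| ≤ N - (N : ℝ) ^ (1 / 2 : ℝ) →
    |(a' : ℝ)| ≤ N - (N : ℝ) ^ (1 / 2 : ℝ) → a ≠ a' →
    ∀ c c' : ℕ → ℝ, BX.CofO q c → BX.CofO q c' → BX.CofR ((N : ℝ) ^ ε) X c →
    BX.CofR ((N : ℝ) ^ ε) X c' → Fc N θ δ c c' →
    |∑ d ∈ Ioc D0 X, ∑ d' ∈ (Ioc D0 X).filter (fun d' => Nat.Coprime d d'), c d * c' d' *
      ∑' n : ℤ, (if (q : ℤ) ∣ n - b then Wt N n else 0) * (BX.dl d (n - a) * BX.dl d' (n - a'))| ≤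
      C * (N : ℝ) ^ (1 - η)

/-- the moduli of one block: all prime factors at least `N^ε₁` -/
def Bl (N : ℕ) (θ δ ε₁ : ℝ) (D0 X d : ℕ) : Prop :=
  1 < d ∧ D0 < d ∧ d ≤ X ∧ (∀ p : ℕ, p.Prime → p ∣ d → ε₁ ≤ tt N p) ∧
    (θ ≤ 51 / 100 ∨ FX.FacD N θ δ d)

/-- **OFD** (theorem `OFD (hTTC : St_TTC) (hRC : BX.St_RC) (hRB : BX.St_RB) : St_OFD`; import
`Pool.Agent.H442R2.KF.Poi`, `KF.Summ`; compare `BX/Tt.lean`, `BX/Nc.lean`, `BX/Ex.lean`).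

Proof.  `ε₀, η₁` from TTC, `η₀ = min (1/40) (min (ε₀/5) (min (η₁/20) ((1-θ)/20)))`, `ε = ε₁/2`.
Small `N` trivial.  Put `G(n) = Wt(n) ν(n) Θ(n-a) Θ'(n-a') ≥ 0` (`Θ = Ev th D`).  Expand `ν`, `Θ`,
`Θ'`: `G(n) = Wt(n) ∑ λ_{q₁} λ_{q₂} θ_e θ'_{e'} 1_{q | n} 1_{e | n-a} 1_{e' | n-a'}`
(`q = lcm q₁ q₂`), at most `z² D² ≤ N^(4η₀)` terms with coefficients `≤ (log N)²`; each product of
indicators is identically zero or `1_{Q | n - b}`, `Q = lcm(q,e,e')`, `0 ≤ b < Q`, `Q` odd and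
squarefree, `Q ≤ N^(4η₀) ≤ N^ε₀`, all prime factors `< N^ε₁` (so every `d` with `c d ≠ 0` or
`c' d ≠ 0` is coprime to `2Q`: `CofO Q c`; `d` is odd since `2 < N^ε₁`, else take `C` large).
`∑' G R_a R'_{a'} = ∑_{(d,d')=1} c c' ∑' G dl dl' + ∑_{(d,d')>1} c c' ∑' G dl dl'`.
(1) Coprime pairs: TTC for each term, total `≤ N^(4η₀) (log N)² C N^(1-η₁) ≤ C N^(1-η₁/2)`.
(2) Pairs with `(d,d') > 1`: `|dl d m dl d' m'| ≤ 1_{d|m} 1_{d'|m'} + 1_{d|m}/d' + 1_{d'|m'}/d +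
1/(dd')`, and `0 ≤ G(n) ≤ C N^(ε₁/8) (1+|n|)^(ε₁/8) Wt(n)` for `n ∉ {0, a, a'}` (divisor bound
`τ(m) ≤ C_κ |m|^κ`: `ν ≤ τ(n)²`, `Θ ≤ (log N) τ(n-a)`), and `G(n) ≤ (log N)² z² D² ≤ N^(5η₀)` always.
 (2a) `n ∉ {0, a, a'}`: `∑_{(d,d')>1} 1_{d | n-a} 1_{d' | n-a'} = 0` unless a prime `l ≥ N^ε₁` divides
 `n-a`, `n-a'`, hence `a - a'` (at most `2/ε₁` such `l`), and it is `≤ C (1+|n|/N)^(1/2)` (RC); so the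
 contribution is `≤ C N^(ε₁/4) ∑_l ∑_{l | n-a} Wt(n) (1+|n|/N) ≤ C N^(ε₁/4) (N^(1-ε₁) + 1)`.
 `∑_{(d,d')>1} 1_{d | n-a}/d'`: for each of the `≤ C (1+|n|/N)^(1/4)` rough `d | n-a`,
 `∑_{d' : (d,d')>1} 1/d' ≤ ∑_{l | d} (1 + log N)/l ≤ C log N N^(-ε₁)`; similarly the third; for the
 fourth `∑_{(d,d')>1} 1/(dd') ≤ ∑_{l ≥ N^ε₁} ((1+log N)/l)² ≤ 4 (1 + log N)² N^(-ε₁)` (all prime
 factors of `d, d'` are `≥ N^ε₁` by `Bl`), and `∑ G ≤ C N^(1 + ε₁/4)`.  Total `≤ C N^(1 - ε₁/2)`.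
 (2b) `n ∈ {0, a, a'}`: `G ≤ N^(5η₀)`; for `n = 0` (if `a, a' ≠ 0`) the sums are `≤ C`; for `n = a`:
 `1_{d | 0} = 1` for all `d`: at most `X` values `d`, `≤ C` values `d'` resp. `≤ 1 + log N` for
 `∑ 1/d'`: total `≤ C N^(5η₀ + θ) log N ≤ N^(1-η)`.
(3) From `R` to `rf`: the terms `n = a`, `n = a'`: `G |R_a(a)| |R'_{a'}(a)| ≤ N^(5η₀) X C`. -/
def St_OFD : Prop := ∀ θ δ : ℝ, 0 < θ → θ < 5 / 9 → 0 < δ → ∃ ε₀ η₀ : ℝ, 0 < ε₀ ∧ 0 < η₀ ∧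
    η₀ ≤ 1 / 40 ∧ ∀ ε₁ : ℝ, 0 < ε₁ → ε₁ ≤ 1 → ∃ η C : ℝ, 0 < η ∧ 0 < C ∧
    ∀ (N z D D0 X : ℕ), 2 ≤ N → (z : ℝ) ≤ (N : ℝ) ^ η₀ → (z : ℝ) < (N : ℝ) ^ ε₁ →
    (D : ℝ) ≤ (N : ℝ) ^ η₀ → (X : ℝ) ≤ (N : ℝ) ^ θ → 1 ≤ D0 → (X : ℝ) ≤ (N : ℝ) ^ ε₀ * D0 →
    ∀ lam : ℕ → ℝ, SWs z lam → ∀ P : Finset ℕ,
    (∀ p ∈ P, p.Prime ∧ 2 < p ∧ (p : ℝ) < (N : ℝ) ^ ε₁) →
    ∀ th th' : ℕ → ℝ, DW P D (Real.log N) th → DW P D (Real.log N) th' →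
    (∀ m : ℤ, 0 ≤ Ev th D m) → (∀ m : ℤ, 0 ≤ Ev th' D m) →
    ∀ a a' : ℤ, |(a : ℝ)| ≤ N - (N : ℝ) ^ (1 / 2 : ℝ) → |(a' : ℝ)| ≤ N - (N : ℝ) ^ (1 / 2 : ℝ) →
    a ≠ 0 → a' ≠ 0 → a ≠ a' → ∀ c c' : ℕ → ℝ, BX.CofR ((N : ℝ) ^ (ε₁ / 2)) X c →
    BX.CofR ((N : ℝ) ^ (ε₁ / 2)) X c' → (∀ d, c d ≠ 0 → Bl N θ δ ε₁ D0 X d) →
    (∀ d, c' d ≠ 0 → Bl N θ δ ε₁ D0 X d) →
    |∑' n : ℤ, Wt N n * BX.nuS lam z n * (Ev th D (n - a) * Ev th' D (n - a')) *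
      (BX.rf c X a n * BX.rf c' X a' n)| ≤ C * (N : ℝ) ^ (1 - η)

/-- **VLB** (theorem `VLB : St_VLB`).  Mertens.

Proof.  `∏_{w ≤ p < v} (1 - 1/p) ≍ log w/log v` uniformly (`Pool.Agent.Helper256.KM.mertens_inv` and
`|log(1 - 1/p) + 1/p| ≤ 1/p²`), with `w = (log N)^B`, `v = N^ε₁`:
`log w/log v = B log log N/(ε₁ log N)`. -/
def St_VLB : Prop := ∃ c₂ : ℝ, 0 < c₂ ∧ ∀ B : ℕ, 1 ≤ B → ∀ ε₁ : ℝ, 0 < ε₁ → ε₁ ≤ 1 → ∃ N₀ : ℕ,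
    ∀ N : ℕ, N₀ ≤ N →
      c₂ * (B * Real.log (Real.log N) / (ε₁ * Real.log N)) ≤ VV (P1 N B ε₁) ∧
      VV (P1 N B ε₁) ≤ 1 / c₂ * (B * Real.log (Real.log N) / (ε₁ * Real.log N))

/-- **BXB** (theorem
`BXB (hFLW : St_FLW) (hCOR : St_COR) (hPBX : St_PBX) (hOFD : St_OFD) (hVLB : St_VLB)
(hDU : BX.St_DU) (hPR : BX.St_PR) (hWXS : St_WXS) (hGS : BX.St_GS) : St_BXB`; compare
`BX/Bk.lean`).  One block.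

Proof.  `ε₀, η₀` from OFD at `θ, δ`; `c₁` from PBX; `A = A₀ + 4 c₁ + 10`; `ε*` from FLW at `η₀, A`,
and `ε* ≤ min (1/8) (2η₀)`.  Given `ε₁ ≤ ε*`, `ε = ε₁/2`, `B ≥ 40`, `N ≥ N₀`: `P = P1 N B ε₁`,
`V = VV P`, `y = (log N)^B`, `D = ⌊N^η₀⌋`, `th, dl` from FLW (`|hat th| ≤ 2V`, `|hat dl| ≤
e^(-A/ε₁) V`), `z = ⌊N^(ε₁/2)⌋ ≥ 2` (`≤ N^η₀`, `< N^ε₁`), `lam` from WXS, `w = Wt N · nuS lam z`,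
`LF ≤ 2/log z ≤ 8/(ε₁ log N)` (`SW.form`), and `LF ≥ -1/N^(1/2)`, as `N LF + O((log N)²·(1 + N/..)) =
∑' Wt ν ≥ 0` (or: `LF = ∑_k φ(k) (∑_{k | q} λ_q/q)² ≥ 0` by `gcd(m,n) = ∑_{k | m, k | n} φ(k)`); so
`|LF| ≤ 8/(ε₁ log N)`.  `V ≥ (log N)^(-1)` (VLB), so the errors
`C (log N)² (N (log N)^(20-B) + 1)` of COR (`U = log N`) are `≤ N V²/(log N)^2`, tiny.
For `a ∈ 𝒜` let `c_a` from PR for the function `p ↦ f p xx P (p - a)` and `T a`;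
`r_a(n) = xx P (n-a) · rf c_a X a n`; `Y_a = ∑_{p ∈ S} f p r_a(p)`, `S` the primes in `(z, N]`.
(G) `∑' w r_a² ≤ e^(2c₁/ε) ∑' Wt N (1+|n|/N)^(1/2) ν xx P (n-a) ≤ 2 e^(4c₁/ε₁) ∑' Wt (2N) ν Ev th (n-a)`
(GS, `xx ≤ Ev th`), and COR at `2N` (`th' = 1_{e=1}`, `a' ∈ {1, 2}`, `a' ≠ a`; `z, D ≤ (2N)^(1/20)`)
gives `≤ 2 e^(4c₁/ε₁) (2N |LF| 2V + error) =: G ≤ C(ε₁) V N/log N`.
(O) `a ≠ a'`: `x = xx P (n-a)`, `x' = xx P (n-a')`, `Θ, Θ', Δ, Δ'`: `ΘΘ' - xx' = (Θ-x)Θ' + x(Θ'-x')`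
lies in `[0, ΔΘ' + ΘΔ']`.  So `|∑' w r_a r_{a'}| ≤ |∑' w ΘΘ' rf rf'| + ∑' w (ΔΘ' + ΘΔ') |rf| |rf'|`.
The first is `≤ C N^(1-η)` (OFD; `Ev th ≥ xx ≥ 0`); the second is
`≤ 2 e^(4c₁/ε₁) ∑' Wt (2N) ν (ΔΘ' + ΘΔ') ≤ 2 e^(4c₁/ε₁) (2N |LF| 2 (2V)(e^(-A/ε₁) V) + error) ≤
(64/ε₁) e^((4c₁ - A)/ε₁) V² N/log N`.
DU: `∑_a Y_a² ≤ 25 (∑_{p ∈ S} f²) (G + |𝒜| O)` with `∑_{p ∈ S} f² ≤ π(N) ≤ 2 N/log N`... (`≤ 25 ∑' w ≤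
C N/(ε₁ log N)` as in `BX.BK`), and `∑_{d ∈ T a} |Df| ≤ |Y_a| + E`, `E ≤ C (z + X + N^(1-ε/2)) ≤
C N^(1-η')`, `(|Y_a| + E)² ≤ 2 Y_a² + 2 E²`.  Total `≤ (N/log N)² (C V + (C/ε₁²) e^((4c₁ - A)/ε₁) V²
|𝒜|)` with an absolute `C` in the second term, and `(C/ε₁²) e^((4c₁-A)/ε₁) ≤ e^(-A₀/ε₁)` for
`ε₁ ≤ ε*` (shrink `ε*`). -/
def St_BXB : Prop := ∀ θ δ A₀ : ℝ, 0 < θ → θ < 5 / 9 → 0 < δ → 0 < A₀ → ∃ ε₀ εs : ℝ, 0 < ε₀ ∧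
    0 < εs ∧ ∀ ε₁ : ℝ, 0 < ε₁ → ε₁ ≤ εs → ∃ C : ℝ, 0 < C ∧
    ∀ B : ℕ, 40 ≤ B → ∃ N₀ : ℕ, ∀ N D0 X : ℕ, N₀ ≤ N → (X : ℝ) ≤ (N : ℝ) ^ θ → 1 ≤ D0 →
    (X : ℝ) ≤ (N : ℝ) ^ ε₀ * D0 → ∀ f : ℕ → ℝ, (∀ p, |f p| ≤ 1) → ∀ 𝒜 : Finset ℤ,
    (∀ a ∈ 𝒜, a ≠ 0 ∧ |(a : ℝ)| ≤ N - (N : ℝ) ^ (1 / 2 : ℝ)) → ∀ T : ℤ → Finset ℕ,
    (∀ a ∈ 𝒜, ∀ d ∈ T a, Bl N θ δ ε₁ D0 X d) →
    ∑ a ∈ 𝒜, (∑ d ∈ T a, |BX.Df (fun p => f p * xx (P1 N B ε₁) (p - a)) N a d|) ^ 2 ≤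
      (N / Real.log N) ^ 2 * (C * VV (P1 N B ε₁) +
        Real.exp (-(A₀ / ε₁)) * VV (P1 N B ε₁) ^ 2 * 𝒜.card)

open Classical in
/-- all moduli: prime factors at least `N^ε₁`, up to `N^θ`, factorable above `N^(51/100)` -/
noncomputable def facS (N : ℕ) (θ ε₁ δ : ℝ) : Finset ℕ :=
  (Icc 1 ⌊(N : ℝ) ^ θ⌋₊).filter (fun d => 1 < d ∧ (∀ p : ℕ, p.Prime → p ∣ d → ε₁ ≤ tt N p) ∧
    ((d : ℝ) ≤ (N : ℝ) ^ (51 / 100 : ℝ) ∨ FacO N δ d))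

/-- **FIX** (theorem `FIX (hBXB : St_BXB) : St_FIX`; compare `Pool/Agent/W583/DC/FIF.lean` and
`BX/Fi.lean`).

Proof.  Cover `[0, θ]` by finitely many windows as in `W583.DC.FIF`: the moduli `d ≤ N^(51/100)`
(BXB at `θ = 51/100`, any `δ`), and for `κ = min (δ/14) ((5/9-θ)/2)` the windows
`(N^(θ_j - κ), N^(θ_j)]`, `θ_j = 51/100 + j κ < 5/9` (BXB at `θ_j, δ/2`: there `FacO N δ d` implies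
`FacD N θ_j (δ/2) d`, `W583.DC.facD_of_facO`), each cut into finitely many blocks `(D0, X]` with
`X ≤ N^ε₀ D0` (as in `BX.FI`).  The number `I` of all blocks depends on `θ, δ` only if the `ε₀` of BXB
do; apply BXB with `A₀ + 1` in place of `A₀`: `ε₀` may depend on it, which is harmless, the number of
blocks is fixed before `ε₁`.  `(∑_i x_i)² ≤ I ∑ x_i²`, `I² e^(-(A₀+1)/ε₁) ≤ e^(-A₀/ε₁)` for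
`ε₁ ≤ ε*`. -/
def St_FIX : Prop := ∀ θ δ A₀ : ℝ, 0 < θ → θ < 5 / 9 → 0 < δ → 0 < A₀ → ∃ εs : ℝ, 0 < εs ∧
    ∀ ε₁ : ℝ, 0 < ε₁ → ε₁ ≤ εs → ∃ C : ℝ, 0 < C ∧ ∀ B : ℕ, 40 ≤ B → ∃ N₀ : ℕ, ∀ N : ℕ, N₀ ≤ N →
    ∀ f : ℕ → ℝ, (∀ p, |f p| ≤ 1) → ∀ 𝒜 : Finset ℤ,
    (∀ a ∈ 𝒜, a ≠ 0 ∧ |(a : ℝ)| ≤ N - (N : ℝ) ^ (1 / 2 : ℝ)) →
    ∑ a ∈ 𝒜, (∑ d ∈ facS N θ ε₁ δ, |BX.Df (fun p => f p * xx (P1 N B ε₁) (p - a)) N a d|) ^ 2 ≤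
      (N / Real.log N) ^ 2 * (C * VV (P1 N B ε₁) +
        Real.exp (-(A₀ / ε₁)) * VV (P1 N B ε₁) ^ 2 * 𝒜.card)

/-- **BX0** (theorem
`BX0 (hFLW : St_FLW) (hCOR : St_COR) (hVLB : St_VLB) (hDU : BX.St_DU) (hWXS : St_WXS)
(hGS : BX.St_GS) (hGW : BX.St_GW) : St_BX0`).  The first moment.

Proof.  `A = A₀ + 10`, `η₀ = 1/40`, `ε*` from FLW.  Notation as in BXB with `z = ⌊N^(1/40)⌋`
(`log z ≥ log N/50`, `0 ≤ LF ≤ 2/log z` up to `1/N`).  DU with `r_a(n) = xx P (n-a) - V`.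
(G) `∑' w r_a² ≤ ∑' w xx P (n-a) + V² ∑' w ≤ ∑' w Ev th (n-a) + V² ∑' w ≤ C V N/log N` (COR; GW).
(O) `∑' w r_a r_{a'} = ∑' w xx' - V ∑' w x - V ∑' w x' + V² ∑' w`.  By COR and
`0 ≤ ΘΘ' - xx' ≤ ΔΘ' + ΘΔ'`, `0 ≤ Θ - x ≤ Δ`: with `M = hat th = V (1 + O(ρ))`, `ρ = e^(-A/ε₁)`,
`∑' w xx' = N LF (M² + O(4 ρ V²)) + err`, `∑' w x = N LF (M + O(ρ V)) + err`, `∑' w = N LF + err`
(COR with `th = th' = 1_{e=1}`), so `|∑' w r_a r_{a'}| ≤ N LF (M - V)² + 20 ρ V² N LF + err ≤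
C ρ V² N/log N`.
The primes `p ≤ z` contribute at most `z` to each sum (`|f| ≤ 1`, `|r_a| ≤ 1`), `z² ≤ N^(1/20)`. -/
def St_BX0 : Prop := ∀ A₀ : ℝ, 0 < A₀ → ∃ εs : ℝ, 0 < εs ∧
    ∀ ε₁ : ℝ, 0 < ε₁ → ε₁ ≤ εs → ∃ C : ℝ, 0 < C ∧ ∀ B : ℕ, 40 ≤ B → ∃ N₀ : ℕ, ∀ N : ℕ, N₀ ≤ N →
    ∀ f : ℕ → ℝ, (∀ p, |f p| ≤ 1) → ∀ 𝒜 : Finset ℤ, (∀ a ∈ 𝒜, a ≠ 0 ∧ |(a : ℝ)| ≤ N) →
    ∑ a ∈ 𝒜, (∑ p ∈ (Icc 1 N).filter Nat.Prime,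
        f p * (xx (P1 N B ε₁) (p - a) - VV (P1 N B ε₁))) ^ 2 ≤
      (N / Real.log N) ^ 2 * (C * VV (P1 N B ε₁) +
        Real.exp (-(A₀ / ε₁)) * VV (P1 N B ε₁) ^ 2 * 𝒜.card)

open Classical in
/-- **UBS** (theorem `UBS (hVLB : St_VLB) : St_UBS`; import `Pool.Agent.H373R2.T7.Fund`: `sys_fund`).
An upper bound sieve.

Proof.  `p = a - m n` or `p = a + m n` (according to the sign; fix the class: `n` runs over an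
interval of length `≤ N/m + 1` of integers, translate it to `[1, X]`, `X = ⌊N/m⌋ + 2 ≥ N^(19/20)`).
Conditions modulo a prime `l ≤ Y = N^(1/(2K))` (`K` from `sys_fund` with `c = 2`, `ε = 1`; `x = X`,
`Y^K ≤ N^(1/2) ≤ X`): `l ∤ p` (or `p ≤ Y`, at most `Y` primes) and, if `l ∈ P`, `l ∤ a - p`.  For
`l ∤ m`, `l ∉ P`: one class; `l | m`: `p ≡ a ≢ 0 (l)` as `gcd(a,m) = 1`, no class is needed; `l ∈ P`,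
`l ∤ m`, `l ∤ a`: two classes; if `l | a` one class; if `l ∈ P`, `l | m`: nothing is required.  So the
count is `≤ 2 X ∏_{l ≤ Y} (1 - ν(l)/l) + √X + Y`, and the product is at most
`∏_{l ≤ Y} (1 - 1/l) · (m/φ(m)) · ∏_{l ∈ P, l ≤ Y} (1 - 1/l) · ∏_{l ∈ P, l | a m} (1 - 1/l)^(-1)`
(`1 - 2/l ≤ (1 - 1/l)²`), the last factor is `≤ 2` (at most `2 log N/log log N` primes
`l ≥ (log N)^B`, `B ≥ 2`), `∏_{l ≤ Y} (1 - 1/l) ≤ C/log N`, and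
`∏_{l ∈ P, l ≤ Y} (1 - 1/l) ≤ C(ε₁, B) V` (Mertens / VLB for `ε₁' = min ε₁ (1/(2K))`). -/
def St_UBS : Prop := ∀ B : ℕ, 2 ≤ B → ∀ ε₁ : ℝ, 0 < ε₁ → ε₁ ≤ 1 → ∃ (C : ℝ) (N₀ : ℕ), 0 < C ∧
    ∀ N : ℕ, N₀ ≤ N → ∀ a : ℤ, a ≠ 0 → |(a : ℝ)| ≤ N → ∀ m : ℕ, 1 ≤ m →
    (m : ℝ) ≤ (N : ℝ) ^ (1 / 20 : ℝ) → Int.gcd a m = 1 →
    (((Icc 1 N).filter (fun p : ℕ => p.Prime ∧ (m : ℤ) ∣ a - p ∧
      xx (P1 N B ε₁) (p - a) = 1)).card : ℝ) ≤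
      C * (N / (Nat.totient m * Real.log N)) * VV (P1 N B ε₁)

open Classical in
/-- **SMO** (theorem `SMO (hUBS : St_UBS) (hVLB : St_VLB) : St_SMO`).  Smooth parts.

Proof.  `y = (log N)^B`, `g(p)` the `y`-smooth part of `|a - p| ≠ 0` (product of the prime powers
`l^k ∥ a - p`, `l < y`); the condition says `g(p) > y^u` for some divisor, so `g(p) > y^u`.
(1) `g(p) > N^(1/20)`: then `g(p)` has a divisor `m ∈ (N^(1/20), N^(1/20) y]` (multiply its primes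
one after the other), `m` is `y`-smooth, and for each `m` at most `3N/m + 1 ≤ 4N/m` integers `p`.
`∑_{m > N^(1/20), y-smooth} 1/m ≤ N^(-β/20) ∏_{l < y} (1 - l^(β-1))^(-1)`, `β = 1/(2B)`:
`∑_{l < y} l^(β-1) ≤ y^β (1 + log y) = (log N)^(1/2) (1 + B log log N)`, so the product is
`≤ exp(C (log N)^(3/4))`, and the number of these `p` is `≤ N^(1 - 1/(50 B)) ≤ e^(-u) V N/log N/2` for
`N ≥ N₀(B, u)`.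
(2) `y^u < g(p) ≤ N^(1/20)`, `gcd(a, g(p)) = 1`: with `α = 1/log y`, `1 ≤ e^(-u) g^α`, and
`g^α = ∑_{m | g} h(m)`, `h` multiplicative, `h(l^k) = l^(kα) - l^((k-1)α) ≥ 0`.  So the number is at
most `e^(-u) ∑_{m ≤ N^(1/20), y-smooth, gcd(a,m)=1} h(m) #{p : m | a - p, xx = 1} ≤
e^(-u) C V (N/log N) ∑_m h(m)/φ(m)` (UBS), and `∑_m h(m)/φ(m) ≤ ∏_{l < y} (1 + ∑_k h(l^k)/φ(l^k)) ≤
exp(∑_{l < y} ∑_{k ≥ 1} 2 h(l^k)/l^k)`; for `k = 1`: `h(l) = l^α - 1 ≤ e α log l` (`l^α ≤ e`); for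
`k ≥ 2` (and `N` large, `α ≤ 1/8`): `h(l^k) ≤ α log l · l^(kα) ≤ α log l · l^(k/8)`, and
`∑_{k ≥ 2} l^(-7k/8) ≤ C l^(-7/4)`.  So the exponent is
`≤ C α ∑_{l < y} log l/l + C α ∑_l log l · l^(-7/4) ≤ C` (Mertens `Helper256.KM.mertens_log`).
(3) `gcd(a, g(p)) > 1`: a prime `l < y` divides `a` and `a - p`, so `p = l`: at most `y` values. -/
def St_SMO : Prop := ∀ B : ℕ, 2 ≤ B → ∀ ε₁ : ℝ, 0 < ε₁ → ε₁ ≤ 1 → ∃ C : ℝ, 0 < C ∧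
    ∀ u : ℕ, 1 ≤ u → ∃ N₀ : ℕ, ∀ N : ℕ, N₀ ≤ N → ∀ a : ℤ, a ≠ 0 → |(a : ℝ)| ≤ N →
    (((Icc 1 N).filter (fun p : ℕ => p.Prime ∧ (p : ℤ) ≠ a ∧ xx (P1 N B ε₁) (p - a) = 1 ∧
      ∃ m : ℕ, m ∣ (a - p).natAbs ∧ (∀ l : ℕ, l.Prime → l ∣ m → (l : ℝ) < Real.log N ^ B) ∧
      Real.log N ^ (B * u) < m)).card : ℝ) ≤
      C * Real.exp (-(u : ℝ)) * VV (P1 N B ε₁) * (N / Real.log N)

end Pool.Agent.W23.PL
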