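import Pool.Agent.W23.PL.Defs

/-!
PL project (helper23): the two cases of the Kloosterman bound.
-/

namespace Pool.Agent.W23.PL

open Finset
open Pool.Agent.H442R2
open Pool.Agent.H442R2.KF
open Pool.Agent.W23.DC

theorem COU (hCO : BX.St_CO) (hCOF : St_COF) : St_COU := by
  intro θ δ hθ0 hθ hδ
  rcases le_or_gt θ (51 / 100) with h | h
  · obtain ⟨ε₀, η, C, h1, h2, h3, H⟩ := hCO θ (by linarith)
    refine ⟨ε₀, η, C, h1, h2, h3, ?_⟩
    intro N q D0 X hN hq hqo hqs hqN hX hD hXD a a' ha ha' haa c c' hc hc' _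
    exact H N q D0 X hN hq hqo hqN hX hD hXD a a' ha ha' haa c c' hc hc'
  · obtain ⟨ε₀, η, C, h1, h2, h3, H⟩ := hCOF θ δ (by linarith) hθ hδ
    refine ⟨ε₀, η, C, h1, h2, h3, ?_⟩
    intro N q D0 X hN hq hqo hqs hqN hX hD hXD a a' ha ha' haa c c' hc hc' hF
    rcases hF with hF | ⟨hF1, hF2⟩
    · linarith
    · exact H N q D0 X hN hq hqo hqs hqN hX hD hXD a a' ha ha' haa c c' hc hc' hF1 hF2

end Pool.Agent.W23.PL
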