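import Pool.Agent.W23.PL.Fin1

/-!
PL project (helper23): Chen's theorem in dense sets of primes with the sharp number of exceptions.
-/

namespace Pool.Agent.W23.PL

open Finset Filter
open Pool.Agent.H442R2
open Pool.Agent.H442R2.KF
open Pool.Agent.W23.DC

theorem mem_P1 {N B : ℕ} {ε₁ : ℝ} {p : ℕ} : p ∈ P1 N B ε₁ ↔
    (1 ≤ p ∧ p ≤ N) ∧ p.Prime ∧ Real.log N ^ B ≤ (p : ℝ) ∧ tt N p < ε₁ := by
  simp only [P1, mem_filter, mem_Icc]

open Classical in
/-- the elements `p` of `A` such that `p - a` has no prime factor in `P1` -/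
noncomputable def Aa (A : Finset ℕ) (N B : ℕ) (ε₁ : ℝ) (a : ℤ) : Finset ℕ :=
  A.filter (fun p : ℕ => xx (P1 N B ε₁) ((p : ℤ) - a) = 1)

theorem fA_Aa (A : Finset ℕ) (N B : ℕ) (ε₁ : ℝ) (a : ℤ) :
    fA (Aa A N B ε₁ a) = fun p : ℕ => fA A p * xx (P1 N B ε₁) ((p : ℤ) - a) := by
  classical
  funext p
  unfold fA Aa
  by_cases h : p ∈ A
  · by_cases hx : xx (P1 N B ε₁) ((p : ℤ) - a) = 1
    · rw [if_pos (mem_filter.2 ⟨h, hx⟩), if_pos h, hx, mul_one]
    · have hnp : p ∉ A.filter (fun p : ℕ => xx (P1 N B ε₁) ((p : ℤ) - a) = 1) :=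
        fun hh => hx (mem_filter.1 hh).2
      rw [if_neg hnp, if_pos h, one_mul]
      unfold xx at hx ⊢
      split_ifs with h1
      · exact absurd (if_pos h1) hx
      · rfl
  · have hnp : p ∉ A.filter (fun p : ℕ => xx (P1 N B ε₁) ((p : ℤ) - a) = 1) :=
      fun hh => h (mem_filter.1 hh).1
    rw [if_neg hnp, if_neg h, zero_mul]

theorem card_Aa {A : Finset ℕ} {N B : ℕ} (hA : ∀ p ∈ A, p.Prime ∧ p ≤ N) (ε₁ : ℝ) (a : ℤ) :
    ((Aa A N B ε₁ a).card : ℝ) - VV (P1 N B ε₁) * A.card =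
      ∑ p ∈ (Icc 1 N).filter Nat.Prime,
        fA A p * (xx (P1 N B ε₁) (p - a) - VV (P1 N B ε₁)) := by
  classical
  have hsub : A ⊆ (Icc 1 N).filter Nat.Prime := by
    intro p hp
    have := hA p hp
    rw [mem_filter, mem_Icc]
    exact ⟨⟨this.1.pos, this.2⟩, this.1⟩
  rw [← Finset.sum_subset hsub (fun p _ hpn => by
    unfold fA
    rw [if_neg hpn, zero_mul])]
  have h1 : ∑ p ∈ A, fA A p * (xx (P1 N B ε₁) (p - a) - VV (P1 N B ε₁)) =
      ∑ p ∈ A, (xx (P1 N B ε₁) ((p : ℤ) - a) - VV (P1 N B ε₁)) := by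
    apply Finset.sum_congr rfl
    intro p hp
    unfold fA
    rw [if_pos hp, one_mul]
  rw [h1, Finset.sum_sub_distrib, Finset.sum_const, nsmul_eq_mul]
  have h2 : ((Aa A N B ε₁ a).card : ℝ) = ∑ p ∈ A, xx (P1 N B ε₁) ((p : ℤ) - a) := by
    unfold Aa
    rw [Finset.card_filter]
    push_cast
    apply Finset.sum_congr rfl
    intro p _
    unfold xx
    split_ifs <;> simp_all
  rw [h2]
  ring

/-- lower bound for `VV` -/
theorem V_ge (hVLB : St_VLB) : ∃ c₂ : ℝ, 0 < c₂ ∧ ∀ B : ℕ, 1 ≤ B → ∀ ε₁ : ℝ, 0 < ε₁ → ε₁ ≤ 1 →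
    ∃ N₀ : ℕ, ∀ N : ℕ, N₀ ≤ N →
      c₂ * (Real.log (Real.log N) / Real.log N) ≤ VV (P1 N B ε₁) ∧
      1 / Real.log N ≤ VV (P1 N B ε₁) := by
  obtain ⟨c₂, hc₂, h⟩ := hVLB
  refine ⟨c₂, hc₂, fun B hB ε₁ hε hε1 => ?_⟩
  obtain ⟨N₀, hN₀⟩ := h B hB ε₁ hε hε1
  have hlim : Tendsto (fun N : ℕ => Real.log (Real.log (N : ℝ))) atTop atTop :=
    Real.tendsto_log_atTop.comp (Real.tendsto_log_atTop.comp tendsto_natCast_atTop_atTop)
  obtain ⟨N₁, hN₁⟩ := Filter.eventually_atTop.1 (hlim.eventually_ge_atTop (max 1 (1 / c₂)))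
  refine ⟨max N₀ (max N₁ 3), fun N hN => ?_⟩
  have hNN₀ : N₀ ≤ N := (le_max_left _ _).trans hN
  have hNN₁ : N₁ ≤ N := ((le_max_left _ _).trans (le_max_right _ _)).trans hN
  have hN3 : 3 ≤ N := ((le_max_right _ _).trans (le_max_right _ _)).trans hN
  have hL : 0 < Real.log N := Real.log_pos (by exact_mod_cast (by omega : 1 < N))
  have h1 := (hN₀ N hNN₀).1
  have h2 := hN₁ N hNN₁
  have h3 : 1 ≤ Real.log (Real.log N) := (le_max_left _ _).trans h2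
  have h4 : 1 / c₂ ≤ Real.log (Real.log N) := (le_max_right _ _).trans h2
  have hB1 : (1 : ℝ) ≤ B := by exact_mod_cast hB
  have h5 : c₂ * (Real.log (Real.log N) / Real.log N) ≤
      c₂ * (B * Real.log (Real.log N) / (ε₁ * Real.log N)) := by
    apply mul_le_mul_of_nonneg_left _ hc₂.le
    rw [div_le_div_iff₀ hL (by positivity)]
    have h6 : ε₁ ≤ B := hε1.trans hB1
    have h7 : 0 ≤ Real.log (Real.log N) * Real.log N := by positivity
    nlinarith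
  refine ⟨h5.trans h1, ?_⟩
  refine le_trans ?_ (h5.trans h1)
  rw [← mul_div_assoc]
  apply div_le_div_of_nonneg_right _ hL.le
  rw [div_le_iff₀ hc₂] at h4
  linarith

open Classical in
/-- the theorem in terms of `N` -/
theorem main_N (hPT : St_PT) (hLN : St_LN) (hER : St_ER) (hMI : St_MI) (hMT : St_MT)
    (hMP : St_MP) (hFA : St_FA) (hNU : St_NU) (hSFX : St_SFX) (hFIX : St_FIX) (hBX0 : St_BX0)
    (hVLB : St_VLB) (hSMO : St_SMO) (δ : ℝ) (hδ : 0 < δ) :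
    ∃ (c C : ℝ) (K N₀ : ℕ), 0 < c ∧ 0 < C ∧ ∀ N : ℕ, N₀ ≤ N → ∀ A : Finset ℕ,
      (∀ p ∈ A, p.Prime ∧ p ≤ N) → δ * (N / Real.log N) ≤ A.card → ∀ E : Finset ℤ,
      (∀ a ∈ E, a ≠ 0 ∧ |(a : ℝ)| ≤ N - (N : ℝ) ^ (1 / 2 : ℝ) ∧ ((A.filter (fun p : ℕ =>
        (p : ℤ) ≠ a ∧ ∃ m s : ℕ, (a - p).natAbs = m * s ∧ (m : ℝ) ≤ Real.log N ^ K ∧ 1 < s ∧
          s.primeFactorsList.length ≤ 2 ∧
          ∀ q ∈ s.primeFactors, (N : ℝ) ^ (1 / 7 : ℝ) ≤ q)).card : ℝ) <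
            c * (Real.log (Real.log N) / Real.log N) * A.card) →
      (E.card : ℝ) ≤ C * (Real.log N / Real.log (Real.log N)) := by
  obtain ⟨A0, F, f, hS⟩ := hSFX
  obtain ⟨c₀, hc₀, H1⟩ := lowerS hPT hLN hER hMI hMT hMP hFA hNU A0 F f hS
  obtain ⟨c₂, hc₂, HV⟩ := V_ge hVLB
  obtain ⟨e1, he1, HF⟩ := hFIX (111 / 200) (1 / 500) 1 (by norm_num) (by norm_num) (by norm_num)
    one_pos
  obtain ⟨e2, he2, H0⟩ := hBX0 1 one_pos
  -- the choice of `ε₁`
  set w : ℝ := (c₀ * δ / 24) ^ 2 with hw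
  have hw0 : 0 < w := by positivity
  obtain ⟨ε₁, hε₁, hε₁a, hε₁e1, hε₁e2, hε₁b, hε₁c⟩ : ∃ ε₁ : ℝ, 0 < ε₁ ∧ ε₁ ≤ 1 / 25 ∧ ε₁ ≤ e1 ∧
      ε₁ ≤ e2 ∧ Real.exp (-(1 / ε₁)) ≤ w * ε₁ ^ 2 / 2 ∧ Real.exp (-(1 / ε₁)) ≤ δ ^ 2 / 8 := by
    obtain ⟨e, he, h1, h2, h3, h4, h5⟩ : ∃ e : ℝ, 0 < e ∧ e ≤ 1 / 25 ∧ e ≤ e1 ∧ e ≤ e2 ∧
        e ≤ w / 12 ∧ e ≤ δ ^ 2 / 8 := by
      refine ⟨min (min (1 / 25) e1) (min e2 (min (w / 12) (δ ^ 2 / 8))), ?_, ?_, ?_, ?_, ?_, ?_⟩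
      · exact lt_min (lt_min (by norm_num) he1) (lt_min he2 (lt_min (by positivity)
          (by positivity)))
      · exact (min_le_left _ _).trans (min_le_left _ _)
      · exact (min_le_left _ _).trans (min_le_right _ _)
      · exact (min_le_right _ _).trans (min_le_left _ _)
      · exact (min_le_right _ _).trans ((min_le_right _ _).trans (min_le_left _ _))
      · exact (min_le_right _ _).trans ((min_le_right _ _).trans (min_le_right _ _))
    have hexp : Real.exp (-(1 / e)) ≤ 6 * e ^ 3 := by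
      have h6 : (1 / e) ^ 3 / 6 ≤ Real.exp (1 / e) := by
        have h := Real.pow_div_factorial_le_exp (1 / e) (by positivity) 3
        have h' : ((Nat.factorial 3 : ℕ) : ℝ) = 6 := by norm_num [Nat.factorial]
        rw [h'] at h
        exact h
      rw [Real.exp_neg]
      rw [inv_le_comm₀ (Real.exp_pos _) (by positivity)]
      refine le_trans (le_of_eq ?_) h6
      field_simp
    refine ⟨e, he, h1, h2, h3, hexp.trans ?_, hexp.trans ?_⟩
    · have : 6 * e ^ 3 = 6 * e * e ^ 2 := by ring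
      rw [this]
      have h7 : 0 ≤ e ^ 2 := by positivity
      nlinarith
    · have h8 : 6 * e ^ 2 ≤ 1 := by nlinarith
      have : 6 * e ^ 3 = 6 * e ^ 2 * e := by ring
      rw [this]
      nlinarith
  obtain ⟨N₁, hN₁⟩ := H1 ε₁ hε₁ hε₁a
  obtain ⟨C₁, hC₁, HF'⟩ := HF ε₁ hε₁ hε₁e1
  obtain ⟨N₂, hN₂⟩ := HF' 40 le_rfl
  obtain ⟨C₃, hC₃, H0'⟩ := H0 ε₁ hε₁ hε₁e2
  obtain ⟨N₃, hN₃⟩ := H0' 40 le_rfl
  obtain ⟨N₄, hN₄⟩ := HV 40 (by norm_num) ε₁ hε₁ (by linarith)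
  obtain ⟨C₅, hC₅, HS⟩ := hSMO 40 (by norm_num) ε₁ hε₁ (by linarith)
  obtain ⟨u, hu1, hu⟩ : ∃ u : ℕ, 1 ≤ u ∧ C₅ * Real.exp (-(u : ℝ)) ≤ c₀ * ε₁ * δ / 16 := by
    have hlim : Tendsto (fun u : ℕ => C₅ * Real.exp (-(u : ℝ))) atTop (nhds (C₅ * 0)) :=
      (Real.tendsto_exp_neg_atTop_nhds_zero.comp tendsto_natCast_atTop_atTop).const_mul C₅
    rw [mul_zero] at hlim
    obtain ⟨u, hu⟩ := Filter.eventually_atTop.1
      (hlim.eventually_le_const (show (0 : ℝ) < c₀ * ε₁ * δ / 16 by positivity))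
    exact ⟨max u 1, le_max_right _ _, hu _ (le_max_left _ _)⟩
  obtain ⟨N₅, hN₅⟩ := HS u hu1
  obtain ⟨N₆, hN₆⟩ := struct
  -- large `N`
  obtain ⟨N₇, hN₇⟩ : ∃ N₇ : ℕ, ∀ N : ℕ, N₇ ≤ N →
      12 * (N : ℝ) ^ (6 / 7 : ℝ) + 2 * Real.log N ^ (40 * u) + 1 ≤
        c₀ * ε₁ * δ / 16 * (1 / Real.log N * (N / Real.log N)) := by
    have hk : 0 < c₀ * ε₁ * δ / 16 := by positivity
    have hlim : Tendsto (fun x : ℝ => Real.log x ^ (40 * u) / x ^ (1 / 14 : ℝ)) atTop (nhds 0) := by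
      have := (isLittleO_log_rpow_rpow_atTop ((40 * u : ℕ) : ℝ)
        (by norm_num : (0 : ℝ) < 1 / 14)).tendsto_div_nhds_zero
      simpa only [Real.rpow_natCast] using this
    have hlim2 : Tendsto (fun x : ℝ => Real.log x ^ 2 / x ^ (1 / 14 : ℝ)) atTop (nhds 0) := by
      have := (isLittleO_log_rpow_rpow_atTop ((2 : ℕ) : ℝ)
        (by norm_num : (0 : ℝ) < 1 / 14)).tendsto_div_nhds_zero
      simpa only [Real.rpow_natCast] using this
    have h1 := (hlim.comp (tendsto_natCast_atTop_atTop (R := ℝ))).eventually_le_const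
      (show (0 : ℝ) < 1 by norm_num)
    have h1' := (hlim2.comp (tendsto_natCast_atTop_atTop (R := ℝ))).eventually_le_const
      (show (0 : ℝ) < c₀ * ε₁ * δ / 16 / 15 by positivity)
    obtain ⟨M, hM⟩ := Filter.eventually_atTop.1 (h1.and h1')
    refine ⟨max M 2, fun N hN => ?_⟩
    have hNM : M ≤ N := (le_max_left _ _).trans hN
    have hN2 : 2 ≤ N := (le_max_right _ _).trans hN
    have hN1 : (1 : ℝ) < N := by exact_mod_cast (by omega : 1 < N)
    have hN0 : (0 : ℝ) < N := by linarith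
    have hL : 0 < Real.log N := Real.log_pos hN1
    have h2 : Real.log N ^ (40 * u) / (N : ℝ) ^ (1 / 14 : ℝ) ≤ 1 := (hM N hNM).1
    have h2' : Real.log N ^ 2 / (N : ℝ) ^ (1 / 14 : ℝ) ≤ c₀ * ε₁ * δ / 16 / 15 := (hM N hNM).2
    rw [div_le_iff₀ (by positivity)] at h2 h2'
    have h4 : (N : ℝ) ^ (6 / 7 : ℝ) ≤ (N : ℝ) ^ (13 / 14 : ℝ) :=
      Real.rpow_le_rpow_of_exponent_le hN1.le (by norm_num)
    have h5 : (N : ℝ) ^ (1 / 14 : ℝ) ≤ (N : ℝ) ^ (13 / 14 : ℝ) :=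
      Real.rpow_le_rpow_of_exponent_le hN1.le (by norm_num)
    have h6 : (1 : ℝ) ≤ (N : ℝ) ^ (13 / 14 : ℝ) := Real.one_le_rpow hN1.le (by norm_num)
    have h7 : 15 * (N : ℝ) ^ (13 / 14 : ℝ) ≤
        c₀ * ε₁ * δ / 16 * (1 / Real.log N * (N / Real.log N)) := by
      have e1 : c₀ * ε₁ * δ / 16 * (1 / Real.log N * (N / Real.log N)) =
          c₀ * ε₁ * δ / 16 * N / Real.log N ^ 2 := by
        field_simp
      rw [e1, le_div_iff₀ (by positivity)]
      calc 15 * (N : ℝ) ^ (13 / 14 : ℝ) * Real.log N ^ 2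
          ≤ 15 * (N : ℝ) ^ (13 / 14 : ℝ) * (c₀ * ε₁ * δ / 16 / 15 * (N : ℝ) ^ (1 / 14 : ℝ)) := by
            gcongr
        _ = c₀ * ε₁ * δ / 16 * ((N : ℝ) ^ (13 / 14 : ℝ) * (N : ℝ) ^ (1 / 14 : ℝ)) := by ring
        _ = c₀ * ε₁ * δ / 16 * N := by
            rw [← Real.rpow_add hN0]
            norm_num
    linarith
  obtain ⟨κ, hκ, hκ2, hκw⟩ : ∃ κ : ℝ, 0 < κ ∧ 3 * κ = c₀ * ε₁ * δ / 8 ∧ κ ^ 2 = w * ε₁ ^ 2 :=
    ⟨c₀ * ε₁ * δ / 24, by positivity, by ring, by rw [hw]; ring⟩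
  refine ⟨c₀ * ε₁ * c₂ / 4, (8 * C₃ / δ ^ 2 + 2 * C₁ / κ ^ 2) / c₂, 40 * u,
    max (max (max N₁ N₂) (max N₃ N₄)) (max (max N₅ N₆) (max N₇ 3)), by positivity, by positivity,
    ?_⟩
  intro N hN A hA hAc E hE
  have hNN₁ : N₁ ≤ N :=
    (((le_max_left _ _).trans (le_max_left _ _)).trans (le_max_left _ _)).trans hN
  have hNN₂ : N₂ ≤ N :=
    (((le_max_right _ _).trans (le_max_left _ _)).trans (le_max_left _ _)).trans hN
  have hNN₃ : N₃ ≤ N :=
    (((le_max_left _ _).trans (le_max_right _ _)).trans (le_max_left _ _)).trans hN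
  have hNN₄ : N₄ ≤ N :=
    (((le_max_right _ _).trans (le_max_right _ _)).trans (le_max_left _ _)).trans hN
  have hNN₅ : N₅ ≤ N :=
    (((le_max_left _ _).trans (le_max_left _ _)).trans (le_max_right _ _)).trans hN
  have hNN₆ : N₆ ≤ N :=
    (((le_max_right _ _).trans (le_max_left _ _)).trans (le_max_right _ _)).trans hN
  have hNN₇ : N₇ ≤ N :=
    (((le_max_left _ _).trans (le_max_right _ _)).trans (le_max_right _ _)).trans hN
  have hN3 : 3 ≤ N :=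
    (((le_max_right _ _).trans (le_max_right _ _)).trans (le_max_right _ _)).trans hN
  have hN2 : 2 ≤ N := by omega
  have hN1 : (1 : ℝ) < N := by exact_mod_cast (by omega : 1 < N)
  have hN0 : (0 : ℝ) < N := by linarith
  have hL : 0 < Real.log N := Real.log_pos hN1
  have hL1 : 1 < Real.log N := by
    rw [Real.lt_log_iff_exp_lt hN0]
    have h3 : (3 : ℝ) ≤ N := by exact_mod_cast hN3
    exact Real.exp_one_lt_three.trans_le h3
  have hLL : 0 < Real.log (Real.log N) := Real.log_pos hL1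
  set V := VV (P1 N 40 ε₁) with hV
  obtain ⟨hV1, hV2⟩ := hN₄ N hNN₄
  have hV0 : 0 < V := lt_of_lt_of_le (by positivity) hV1
  set D : ℝ := N / Real.log N with hD
  have hD0 : 0 < D := by positivity
  -- the two kinds of exceptions
  set R : ℤ → ℝ := fun a => ∑ d ∈ facS N (111 / 200) ε₁ (1 / 500),
    |BX.Df (fun p => fA A p * xx (P1 N 40 ε₁) (p - a)) N a d| with hR
  set T : ℤ → ℝ := fun a => ((Aa A N 40 ε₁ a).card : ℝ) - V * A.card with hT
  set E1 := E.filter (fun a => V * (A.card : ℝ) / 2 ≤ |T a|) with hE1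
  set E2 := E.filter (fun a => κ * V * D ≤ R a) with hE2
  have hE𝒜 : ∀ a ∈ E, a ≠ 0 ∧ |(a : ℝ)| ≤ N - (N : ℝ) ^ (1 / 2 : ℝ) := fun a ha =>
    ⟨(hE a ha).1, (hE a ha).2.1⟩
  have hsqrt : 0 ≤ (N : ℝ) ^ (1 / 2 : ℝ) := by positivity
  have hb1 : (E1.card : ℝ) * V ≤ 8 * C₃ / δ ^ 2 := by
    have h1 := hN₃ N hNN₃ (fA A) (fA_le A) E1 (fun a ha => by
      have h := hE𝒜 a (mem_filter.1 ha).1
      exact ⟨h.1, h.2.trans (by linarith)⟩)
    have h2 : (E1.card : ℝ) * (V * (δ * D) / 2) ^ 2 ≤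
        ∑ a ∈ E1, (∑ p ∈ (Icc 1 N).filter Nat.Prime,
          fA A p * (xx (P1 N 40 ε₁) (p - a) - VV (P1 N 40 ε₁))) ^ 2 := by
      rw [← nsmul_eq_mul, ← Finset.sum_const]
      apply Finset.sum_le_sum
      intro a ha
      rw [← card_Aa hA ε₁ a, ← sq_abs (_ - _)]
      refine pow_le_pow_left₀ (by positivity) (le_trans ?_ (mem_filter.1 ha).2) 2
      gcongr
    have h3 := h2.trans h1
    have h4 : (E1.card : ℝ) * (V * (δ * D) / 2) ^ 2 = D ^ 2 * V * (E1.card * V * (δ ^ 2 / 4)) := by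
      ring
    have h5 : (N / Real.log N) ^ 2 * (C₃ * VV (P1 N 40 ε₁) +
        Real.exp (-(1 / ε₁)) * VV (P1 N 40 ε₁) ^ 2 * E1.card) =
        D ^ 2 * V * (C₃ + Real.exp (-(1 / ε₁)) * (E1.card * V)) := by
      rw [← hV, ← hD]
      ring
    rw [h4, h5] at h3
    have h6 := le_of_mul_le_mul_left h3 (by positivity)
    have h7 : 0 ≤ (E1.card : ℝ) * V := by positivity
    rw [le_div_iff₀ (by positivity)]
    nlinarith
  have hb2 : (E2.card : ℝ) * V ≤ 2 * C₁ / κ ^ 2 := by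
    have h1 := hN₂ N hNN₂ (fA A) (fA_le A) E2 (fun a ha => hE𝒜 a (mem_filter.1 ha).1)
    have h2 : (E2.card : ℝ) * (κ * V * D) ^ 2 ≤ ∑ a ∈ E2, (R a) ^ 2 := by
      rw [← nsmul_eq_mul, ← Finset.sum_const]
      apply Finset.sum_le_sum
      intro a ha
      exact pow_le_pow_left₀ (by positivity) (mem_filter.1 ha).2 2
    have h3 := h2.trans h1
    have h4 : (E2.card : ℝ) * (κ * V * D) ^ 2 = D ^ 2 * V * (E2.card * V * κ ^ 2) := by
      ring
    have h5 : (N / Real.log N) ^ 2 * (C₁ * VV (P1 N 40 ε₁) +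
        Real.exp (-(1 / ε₁)) * VV (P1 N 40 ε₁) ^ 2 * E2.card) =
        D ^ 2 * V * (C₁ + Real.exp (-(1 / ε₁)) * (E2.card * V)) := by
      rw [← hV, ← hD]
      ring
    rw [h4, h5] at h3
    have h6 := le_of_mul_le_mul_left h3 (by positivity)
    have h7 : 0 ≤ (E2.card : ℝ) * V := by positivity
    rw [← hκw] at hε₁b
    rw [le_div_iff₀ (by positivity)]
    nlinarith
  -- every element of `E` is of one of the two kinds
  have hcov : E ⊆ E1 ∪ E2 := by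
    intro a haE
    by_contra hno
    rw [mem_union, not_or] at hno
    obtain ⟨n1, n2⟩ := hno
    have n1' : |T a| < V * (A.card : ℝ) / 2 := by
      by_contra h
      exact n1 (mem_filter.2 ⟨haE, not_lt.1 h⟩)
    have n2' : R a < κ * V * D := by
      by_contra h
      exact n2 (mem_filter.2 ⟨haE, not_lt.1 h⟩)
    obtain ⟨ha0, ha1, ha2⟩ := hE a haE
    have haN : |(a : ℝ)| ≤ N := ha1.trans (by linarith)
    have haz : |a| ≤ (N : ℤ) := by
      have h1 : ((|a| : ℤ) : ℝ) ≤ ((N : ℤ) : ℝ) := by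
        push_cast
        exact haN
      exact_mod_cast h1
    set A' := Aa A N 40 ε₁ a with hA'
    have hA'A : ∀ p ∈ A', p.Prime ∧ p ≤ N := fun p hp => hA p (mem_filter.1 hp).1
    have hlow := hN₁ N hNN₁ A' hA'A a
    have hfA : fA A' = fun p : ℕ => fA A p * xx (P1 N 40 ε₁) ((p : ℤ) - a) := fA_Aa A N 40 ε₁ a
    rw [hfA] at hlow
    have hlow' : c₀ * ε₁ * A'.card - 3 * R a ≤ ∑ p ∈ A', Wf N ε₁ (a - (p : ℤ)).natAbs := hlow
    have hpos := sum_le_pos (N := N) (ε₁ := ε₁) A' (fun p : ℕ => (a - (p : ℤ)).natAbs)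
    have hA'c : V * (A.card : ℝ) / 2 ≤ A'.card := by
      have h1 := (abs_lt.1 n1').1
      simp only [hT] at h1
      linarith
    -- the good set
    set Gd := A.filter (fun p : ℕ =>
        (p : ℤ) ≠ a ∧ ∃ m s : ℕ, (a - p).natAbs = m * s ∧
          (m : ℝ) ≤ Real.log N ^ (40 * u) ∧ 1 < s ∧
          s.primeFactorsList.length ≤ 2 ∧
          ∀ q ∈ s.primeFactors, (N : ℝ) ^ (1 / 7 : ℝ) ≤ q) with hGd
    set B1 := A.filter (fun p : ℕ => (p : ℤ) ≠ a ∧ ∃ q : ℕ, q.Prime ∧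
      (N : ℝ) ^ (1 / 7 : ℝ) ≤ q ∧ q ^ 2 ∣ (a - (p : ℤ)).natAbs) with hB1
    set B2 := (Icc 1 N).filter (fun p : ℕ => p.Prime ∧ (p : ℤ) ≠ a ∧
      xx (P1 N 40 ε₁) (p - a) = 1 ∧
      ∃ m : ℕ, m ∣ (a - p).natAbs ∧ (∀ l : ℕ, l.Prime → l ∣ m → (l : ℝ) < Real.log N ^ 40) ∧
      Real.log N ^ (40 * u) < m) with hB2
    set B3 := A.filter (fun p : ℕ => ((a - (p : ℤ)).natAbs : ℝ) ≤ Real.log N ^ (40 * u)) with hB3
    have hcover : A'.filter (fun p : ℕ => 0 < Wf N ε₁ (a - (p : ℤ)).natAbs) ⊆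
        ((Gd ∪ B1) ∪ B2) ∪ B3 := by
      intro p hp
      rw [mem_filter] at hp
      obtain ⟨hpA', hpW⟩ := hp
      obtain ⟨hpA, hpx⟩ := mem_filter.1 hpA'
      by_contra hno
      simp only [mem_union, not_or] at hno
      obtain ⟨⟨⟨g1, g2⟩, g3⟩, g4⟩ := hno
      have hpow0 : (0 : ℝ) ≤ Real.log N ^ (40 * u) := by positivity
      have hpa : (p : ℤ) ≠ a := by
        rintro rfl
        apply g4
        rw [hB3, mem_filter]
        exact ⟨hpA, by simpa using hpow0⟩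
      have hn0 : (a - (p : ℤ)).natAbs ≠ 0 := by
        rw [Ne, Int.natAbs_eq_zero]
        omega
      have hn2 : (a - (p : ℤ)).natAbs ≤ 2 * N := by
        have h3 := abs_le.1 haz
        have h4 := (hA p hpA).2
        omega
      obtain ⟨m, s, hms, hm, hs2, hs3⟩ := hN₆ N hNN₆ ε₁ _ hn0 hn2 hpW (fun q hq hqN hqd => by
        apply g2
        rw [hB1, mem_filter]
        exact ⟨hpA, hpa, q, hq, hqN, hqd⟩)
      -- the prime factors of `m` are small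
      have hxx : ∀ l ∈ P1 N 40 ε₁, ¬ (l : ℤ) ∣ (p : ℤ) - a := by
        unfold xx at hpx
        by_contra hcon
        rw [if_neg hcon] at hpx
        exact zero_ne_one hpx
      have hm' : ∀ l : ℕ, l.Prime → l ∣ m → (l : ℝ) < Real.log N ^ 40 := by
        intro l hl hlm
        by_contra hge
        rw [not_lt] at hge
        have h5 := hm l hl hlm
        have h6 : l ∣ (a - (p : ℤ)).natAbs := hms ▸ (hlm.mul_right s)
        have h7 : (l : ℤ) ∣ (p : ℤ) - a := by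
          have : (l : ℤ) ∣ a - (p : ℤ) := Int.natCast_dvd.2 h6
          rw [← neg_sub]
          exact (dvd_neg).2 this
        have h8 : (l : ℝ) ≤ N := by
          refine h5.le.trans ?_
          calc (N : ℝ) ^ ε₁ ≤ (N : ℝ) ^ (1 : ℝ) :=
                Real.rpow_le_rpow_of_exponent_le hN1.le (by linarith)
            _ = N := Real.rpow_one _
        exact hxx l (mem_P1.2 ⟨⟨hl.pos, by exact_mod_cast h8⟩, hl, hge,
          (tt_lt_iff hN2 hl.pos _).2 h5⟩) h7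
      have hmN : (m : ℝ) ≤ Real.log N ^ (40 * u) := by
        by_contra hlt
        rw [not_le] at hlt
        apply g3
        rw [hB2, mem_filter, mem_Icc]
        exact ⟨⟨(hA p hpA).1.pos, (hA p hpA).2⟩, (hA p hpA).1, hpa, hpx, m, ⟨s, hms⟩, hm', hlt⟩
      have hs1 : 1 < s := by
        by_contra hle
        have hs0 : s ≠ 0 := by
          rintro rfl
          exact hn0 (by rw [hms, mul_zero])
        have hs1 : s = 1 := by omega
        apply g4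
        rw [hB3, mem_filter, hms, hs1, mul_one]
        exact ⟨hpA, hmN⟩
      apply g1
      rw [hGd, mem_filter]
      exact ⟨hpA, hpa, m, s, hms, hmN, hs1, hs2, hs3⟩
    have hcard : ((A'.filter (fun p : ℕ => 0 < Wf N ε₁ (a - (p : ℤ)).natAbs)).card : ℝ) ≤
        Gd.card + B1.card + B2.card + B3.card := by
      have h1 := (Finset.card_le_card hcover).trans (Finset.card_union_le _ _)
      have h2 := Finset.card_union_le (Gd ∪ B1) B2
      have h3 := Finset.card_union_le Gd B1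
      have h4 : (A'.filter (fun p : ℕ => 0 < Wf N ε₁ (a - (p : ℤ)).natAbs)).card ≤
          Gd.card + B1.card + B2.card + B3.card := by omega
      exact_mod_cast h4
    have hbb1 : (B1.card : ℝ) ≤ 12 * (N : ℝ) ^ (6 / 7 : ℝ) :=
      squares hN2 A (fun p hp => (hA p hp).2) a haz
    have hbb2 : (B2.card : ℝ) ≤ C₅ * Real.exp (-(u : ℝ)) * V * D := by
      have := hN₅ N hNN₅ a ha0 haN
      convert this using 2
    have hbb3 : (B3.card : ℝ) ≤ 2 * Real.log N ^ (40 * u) + 1 := close A a _ (by positivity)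
    have hbb4 := hN₇ N hNN₇
    have hVD : 1 / Real.log N * D ≤ V * D := mul_le_mul_of_nonneg_right hV2 hD0.le
    have hVD0 : 0 < V * D := by positivity
    have hk0 : 0 ≤ c₀ * ε₁ * δ / 16 := by positivity
    have hbb5 : 12 * (N : ℝ) ^ (6 / 7 : ℝ) + 2 * Real.log N ^ (40 * u) + 1 ≤
        c₀ * ε₁ * δ / 16 * (V * D) := hbb4.trans (mul_le_mul_of_nonneg_left hVD hk0)
    have hbb6 : C₅ * Real.exp (-(u : ℝ)) * V * D ≤ c₀ * ε₁ * δ / 16 * (V * D) := by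
      rw [mul_assoc]
      exact mul_le_mul_of_nonneg_right hu hVD0.le
    have hR3 : 3 * R a ≤ c₀ * ε₁ * δ / 8 * (V * D) := by
      calc 3 * R a ≤ 3 * (κ * V * D) := by linarith
        _ = (3 * κ) * (V * D) := by ring
        _ = _ := by rw [hκ2]
    have hAδ : c₀ * ε₁ * V * (δ * D) ≤ c₀ * ε₁ * V * A.card := by
      have : 0 ≤ c₀ * ε₁ * V := by positivity
      exact mul_le_mul_of_nonneg_left hAc this
    have hA'2 : c₀ * ε₁ * (V * (A.card : ℝ) / 2) ≤ c₀ * ε₁ * A'.card := by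
      have : 0 ≤ c₀ * ε₁ := by positivity
      exact mul_le_mul_of_nonneg_left hA'c this
    have hgood : (Gd.card : ℝ) < c₀ * ε₁ * c₂ / 4 * (Real.log (Real.log N) / Real.log N) * A.card :=
      ha2
    have hgood2 : c₀ * ε₁ * c₂ / 4 * (Real.log (Real.log N) / Real.log N) * A.card ≤
        c₀ * ε₁ / 4 * V * A.card := by
      have h1 : 0 ≤ c₀ * ε₁ / 4 := by positivity
      calc c₀ * ε₁ * c₂ / 4 * (Real.log (Real.log N) / Real.log N) * A.card
          = c₀ * ε₁ / 4 * (c₂ * (Real.log (Real.log N) / Real.log N)) * A.card := by ring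
        _ ≤ _ := by gcongr
    nlinarith
  have hEc : (E.card : ℝ) * V ≤ 8 * C₃ / δ ^ 2 + 2 * C₁ / κ ^ 2 := by
    have h1 : (E.card : ℝ) ≤ E1.card + E2.card := by
      exact_mod_cast (Finset.card_le_card hcov).trans (Finset.card_union_le _ _)
    nlinarith
  have h2 : (E.card : ℝ) * (c₂ * (Real.log (Real.log N) / Real.log N)) ≤
      8 * C₃ / δ ^ 2 + 2 * C₁ / κ ^ 2 :=
    (mul_le_mul_of_nonneg_left hV1 (Nat.cast_nonneg _)).trans hEc
  have h3 : (E.card : ℝ) = E.card * (c₂ * (Real.log (Real.log N) / Real.log N)) *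
      (1 / c₂ * (Real.log N / Real.log (Real.log N))) := by
    field_simp
  rw [h3]
  calc _ ≤ (8 * C₃ / δ ^ 2 + 2 * C₁ / κ ^ 2) * (1 / c₂ * (Real.log N / Real.log (Real.log N))) := by
        gcongr
    _ = _ := by ring

end Pool.Agent.W23.PL
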