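import Pool.Agent.W23.DC.Fin5
import Pool.Agent.W23.DC.Defs

/-!
PL project (helper23): sharpness of the size of the small factor.
-/

namespace Pool.Agent.W23.PL

open Finset Filter
open Pool.Agent.W23.DC

theorem greedy (U : Finset ℕ) (L : Finset ℕ) (hL : ∀ l ∈ L, 1 ≤ l) : ∃ b : ℕ → ℕ,
    ((U.filter (fun p => ∀ l ∈ L, ¬ p ≡ b l [MOD l])).card : ℝ) ≤
      (∏ l ∈ L, (1 - 1 / (l : ℝ))) * U.card := by
  classical
  induction L using Finset.induction_on with
  | empty =>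
    refine ⟨fun _ => 0, ?_⟩
    simp
  | insert l L hl ih =>
    obtain ⟨b, hb⟩ := ih (fun l' hl' => hL l' (mem_insert_of_mem hl'))
    have hl1 : 1 ≤ l := hL l (mem_insert_self _ _)
    have hl0 : (0 : ℝ) < l := by exact_mod_cast hl1
    set U' := U.filter (fun p => ∀ l ∈ L, ¬ p ≡ b l [MOD l]) with hU'
    obtain ⟨r, hr, hr2⟩ := Finset.exists_le_card_fiber_of_nsmul_le_card_of_maps_to
      (s := U') (t := range l) (f := fun p => p % l) (b := (U'.card : ℝ) / l)
      (fun p _ => mem_range.2 (Nat.mod_lt p hl1)) ⟨0, mem_range.2 hl1⟩ (by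
        rw [card_range, nsmul_eq_mul]
        rw [mul_div_cancel₀ _ hl0.ne'])
    refine ⟨Function.update b l r, ?_⟩
    have h1 : U.filter (fun p => ∀ l' ∈ insert l L, ¬ p ≡ Function.update b l r l' [MOD l']) =
        U'.filter (fun p => ¬ p % l = r) := by
      ext p
      rw [mem_filter, mem_filter, hU', mem_filter]
      have hrl : r % l = r := Nat.mod_eq_of_lt (mem_range.1 hr)
      constructor
      · rintro ⟨hp, h⟩
        refine ⟨⟨hp, fun l' hl' => ?_⟩, ?_⟩
        · have h2 := h l' (mem_insert_of_mem hl')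
          rwa [Function.update_of_ne (by rintro rfl; exact hl hl')] at h2
        · have h2 := h l (mem_insert_self _ _)
          rw [Function.update_self] at h2
          intro h3
          apply h2
          unfold Nat.ModEq
          rw [h3, hrl]
      · rintro ⟨⟨hp, h⟩, h3⟩
        refine ⟨hp, fun l' hl' => ?_⟩
        rcases mem_insert.1 hl' with h5 | h5
        · rw [h5, Function.update_self]
          intro h4
          unfold Nat.ModEq at h4
          rw [hrl] at h4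
          exact h3 h4
        · rw [Function.update_of_ne (by rintro rfl; exact hl h5)]
          exact h l' h5
    rw [h1, prod_insert hl]
    have h2 := Finset.card_filter_add_card_filter_not (s := U') (fun p => p % l = r)
    have h3 : ((U'.filter (fun p => ¬ p % l = r)).card : ℝ) =
        U'.card - (U'.filter (fun p => p % l = r)).card := by
      have : (U'.card : ℝ) = (U'.filter (fun p => p % l = r)).card +
          (U'.filter (fun p => ¬ p % l = r)).card := by exact_mod_cast h2.symm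
      linarith
    rw [h3]
    have h4 : (0 : ℝ) ≤ 1 - 1 / l := by
      rw [sub_nonneg, div_le_one hl0]
      exact_mod_cast hl1
    calc (U'.card : ℝ) - (U'.filter (fun p => p % l = r)).card ≤ U'.card - U'.card / l := by
          linarith
      _ = (1 - 1 / (l : ℝ)) * U'.card := by ring
      _ ≤ (1 - 1 / (l : ℝ)) * ((∏ l ∈ L, (1 - 1 / (l : ℝ))) * U.card) := by gcongr
      _ = _ := by ring

/-- Mertens for `(log X)^κ < l ≤ (log X)/2` -/
theorem mertL (hMP : St_MP) (κ η : ℝ) (hκ : 0 < κ) (hκ1 : κ < 1) (hη : 0 < η) :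
    ∃ X₀ : ℕ, ∀ X : ℕ, X₀ ≤ X →
      ∏ l ∈ (Icc 1 ⌊Real.log X / 2⌋₊).filter
        (fun l : ℕ => l.Prime ∧ Real.log X ^ κ < (l : ℝ)), (1 - 1 / (l : ℝ)) ≤ κ + η := by
  classical
  -- `κ₁`
  set κ₁ : ℝ := min (κ + η / 2) ((κ + 1) / 2) with hκ₁
  have hk1 : κ < κ₁ := lt_min (by linarith) (by linarith)
  have hk2 : κ₁ < 1 := lt_of_le_of_lt (min_le_right _ _) (by linarith)
  have hk3 : κ₁ ≤ κ + η / 2 := min_le_left _ _
  have hk0 : 0 < κ₁ := hκ.trans hk1
  obtain ⟨ε, hε, hε1, hε2⟩ : ∃ ε : ℝ, 0 < ε ∧ ε ≤ 1 ∧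
      Real.exp (-((1 - ε) * (Real.log (1 / κ₁) - ε))) ≤ κ₁ + η / 2 := by
    have hc : ContinuousAt (fun ε : ℝ => Real.exp (-((1 - ε) * (Real.log (1 / κ₁) - ε)))) 0 := by
      fun_prop
    have h0 : Real.exp (-((1 - (0 : ℝ)) * (Real.log (1 / κ₁) - 0))) = κ₁ := by
      rw [sub_zero, sub_zero, one_mul, one_div, Real.log_inv, neg_neg, Real.exp_log hk0]
    have h1 : ∀ᶠ ε in nhds (0 : ℝ),
        Real.exp (-((1 - ε) * (Real.log (1 / κ₁) - ε))) < κ₁ + η / 2 := by
      apply hc.eventually_lt continuousAt_const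
      rw [h0]
      linarith
    obtain ⟨ρ, hρ, h2⟩ := Metric.eventually_nhds_iff.1 h1
    refine ⟨min (ρ / 2) (1 / 2), lt_min (by positivity) (by norm_num),
      (min_le_right _ _).trans (by norm_num), (h2 ?_).le⟩
    rw [Real.dist_eq, sub_zero, abs_of_pos (lt_min (by positivity) (by norm_num))]
    exact lt_of_le_of_lt (min_le_left _ _) (by linarith)
  obtain ⟨M, hM⟩ := hMP κ₁ ε hk0 hε
  -- `N' = ⌊log X / 2⌋`
  have hNt : Tendsto (fun X : ℕ => ⌊Real.log (X : ℝ) / 2⌋₊) atTop atTop :=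
    tendsto_nat_floor_atTop.comp
      ((Real.tendsto_log_atTop.comp tendsto_natCast_atTop_atTop).atTop_div_const (by norm_num))
  have hpow : Tendsto (fun N : ℕ => (N : ℝ) ^ κ₁) atTop atTop :=
    (tendsto_rpow_atTop hk0).comp tendsto_natCast_atTop_atTop
  have hpow2 : Tendsto (fun N : ℕ => (N : ℝ) ^ (κ₁ - κ)) atTop atTop :=
    (tendsto_rpow_atTop (by linarith)).comp tendsto_natCast_atTop_atTop
  have hev := ((hNt.eventually_ge_atTop (max M 2)).and
    ((hpow.comp hNt).eventually_ge_atTop (1 / ε))).and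
    ((hpow2.comp hNt).eventually_gt_atTop ((4 : ℝ) ^ κ))
  obtain ⟨X₀, hX₀⟩ := Filter.eventually_atTop.1 hev
  refine ⟨X₀, fun X hX => ?_⟩
  obtain ⟨⟨h1, h2⟩, h3⟩ := hX₀ X hX
  set N := ⌊Real.log (X : ℝ) / 2⌋₊ with hN
  have h2' : 1 / ε ≤ (N : ℝ) ^ κ₁ := h2
  have h3' : (4 : ℝ) ^ κ < (N : ℝ) ^ (κ₁ - κ) := h3
  have hNM : M ≤ N := (le_max_left _ _).trans h1
  have hN2 : 2 ≤ N := (le_max_right _ _).trans h1
  have hN1 : (1 : ℝ) < N := by exact_mod_cast (by omega : 1 < N)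
  have hN0 : (0 : ℝ) < N := by linarith
  have hlogX : Real.log X ≤ 4 * N := by
    have h4 := Nat.lt_floor_add_one (Real.log (X : ℝ) / 2)
    rw [← hN] at h4
    linarith
  have hlogX0 : 0 ≤ Real.log X := by
    by_contra h
    have h5 : N = 0 := by
      rw [hN]
      apply Nat.floor_of_nonpos
      linarith
    omega
  have h4 := hM N hNM κ₁ 1 le_rfl hk2.le le_rfl
  have h5 := (abs_le.1 h4).1
  -- the primes of `pr N κ₁ 1` are in the set
  set L := (Icc 1 N).filter (fun l : ℕ => l.Prime ∧ Real.log X ^ κ < (l : ℝ)) with hL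
  have hsub : pr N κ₁ 1 ⊆ L := by
    intro l hl
    rw [mem_pr] at hl
    rw [hL, mem_filter, mem_Icc]
    refine ⟨hl.1, hl.2.1, ?_⟩
    have h6 := (le_tt_iff hN2 hl.2.1.pos _).1 hl.2.2.1
    refine lt_of_lt_of_le ?_ h6
    calc Real.log X ^ κ ≤ (4 * (N : ℝ)) ^ κ := Real.rpow_le_rpow hlogX0 hlogX hκ.le
      _ = 4 ^ κ * (N : ℝ) ^ κ := Real.mul_rpow (by norm_num) hN0.le
      _ < (N : ℝ) ^ (κ₁ - κ) * (N : ℝ) ^ κ := by gcongr
      _ = (N : ℝ) ^ κ₁ := by
          rw [← Real.rpow_add hN0]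
          congr 1
          ring
  have hfac : ∀ l ∈ L, 0 ≤ 1 - 1 / (l : ℝ) ∧ 1 - 1 / (l : ℝ) ≤ 1 := by
    intro l hl
    rw [hL, mem_filter, mem_Icc] at hl
    have h6 : (1 : ℝ) ≤ l := by exact_mod_cast hl.1.1
    constructor
    · rw [sub_nonneg, div_le_one (by linarith)]
      exact h6
    · have : 0 < 1 / (l : ℝ) := by positivity
      linarith
  have h7 : ∏ l ∈ L, (1 - 1 / (l : ℝ)) ≤ ∏ l ∈ pr N κ₁ 1, (1 - 1 / (l : ℝ)) :=
    Finset.prod_le_prod_of_subset_of_le_one hsub (fun l hl => (hfac l hl).1)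
      (fun l hl _ => (hfac l hl).2)
  have h8 : ∏ l ∈ pr N κ₁ 1, (1 - 1 / (l : ℝ)) ≤
      Real.exp (-((1 - ε) * ∑ l ∈ pr N κ₁ 1, 1 / ((l : ℝ) - 1))) := by
    rw [Finset.mul_sum, ← Finset.sum_neg_distrib, Real.exp_sum]
    apply Finset.prod_le_prod
    · intro l hl
      exact (hfac l (hsub hl)).1
    · intro l hl
      rw [mem_pr] at hl
      have h9 : (2 : ℝ) ≤ l := by exact_mod_cast hl.2.1.two_le
      have h10 : 1 / ε ≤ l := h2'.trans ((le_tt_iff hN2 hl.2.1.pos _).1 hl.2.2.1)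
      have h11 : (1 - ε) * (1 / ((l : ℝ) - 1)) ≤ 1 / l := by
        rw [mul_one_div, div_le_div_iff₀ (by linarith) (by linarith)]
        rw [div_le_iff₀ hε] at h10
        nlinarith
      have h12 := Real.add_one_le_exp (-(1 / (l : ℝ)))
      have h13 : Real.exp (-(1 / (l : ℝ))) ≤ Real.exp (-((1 - ε) * (1 / ((l : ℝ) - 1)))) :=
        Real.exp_le_exp.2 (by linarith)
      linarith
  refine h7.trans (h8.trans ?_)
  have h14 : Real.exp (-((1 - ε) * ∑ l ∈ pr N κ₁ 1, 1 / ((l : ℝ) - 1))) ≤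
        Real.exp (-((1 - ε) * (Real.log (1 / κ₁) - ε))) := by
      apply Real.exp_le_exp.2
      have h15 : 0 ≤ 1 - ε := by linarith
      have h16 : Real.log (1 / κ₁) - ε ≤ ∑ l ∈ pr N κ₁ 1, 1 / ((l : ℝ) - 1) := by linarith
      nlinarith
  linarith

/-- **sharpness of the size of the small factor** -/
theorem sharp2 (hMP : St_MP) (κ η : ℝ) (hκ : 0 < κ) (hκ1 : κ < 1) (hη : 0 < η) :
    ∃ X₀ : ℕ, ∀ X : ℕ, X₀ ≤ X → ∃ A : Finset ℕ, (∀ p ∈ A, p.Prime ∧ p ≤ X) ∧
      (1 - κ - η) * ((Icc 1 X).filter Nat.Prime).card ≤ A.card ∧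
      ∃ H : Finset ℕ, (X : ℝ) ^ (3 / 10 : ℝ) ≤ H.card ∧ ∀ n ∈ H, n ≤ 2 * X ∧
        ∀ p ∈ A, ¬ ((p : ℤ) ≠ n ∧ ∃ m s : ℕ, ((n : ℤ) - (p : ℤ)).natAbs = m * s ∧
          (m : ℝ) ≤ Real.log X ^ κ ∧ s ≠ 0 ∧
          ∀ q ∈ s.primeFactors, (X : ℝ) ^ (1 / 7 : ℝ) < q) := by
  classical
  obtain ⟨X₁, hX₁⟩ := mertL hMP κ η hκ hκ1 hη
  -- `log X / 2 ≤ X^(1/7)`
  obtain ⟨X₂, hX₂⟩ : ∃ X₂ : ℕ, ∀ X : ℕ, X₂ ≤ X → Real.log X ≤ (X : ℝ) ^ (1 / 7 : ℝ) := by
    have := (isLittleO_log_rpow_atTop (by norm_num : (0 : ℝ) < 1 / 7)).bound one_pos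
    obtain ⟨M, hM⟩ := Filter.eventually_atTop.1
      ((tendsto_natCast_atTop_atTop (R := ℝ)).eventually this)
    refine ⟨max M 1, fun X hX => ?_⟩
    have h1 := hM X ((le_max_left _ _).trans hX)
    have hX1 : (1 : ℝ) ≤ X := by exact_mod_cast (le_max_right _ _).trans hX
    rw [one_mul, Real.norm_of_nonneg (Real.log_nonneg hX1),
      Real.norm_of_nonneg (by positivity)] at h1
    exact h1
  refine ⟨max (max X₁ X₂) 3, fun X hX => ?_⟩
  have hXX₁ : X₁ ≤ X := ((le_max_left _ _).trans (le_max_left _ _)).trans hX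
  have hXX₂ : X₂ ≤ X := ((le_max_right _ _).trans (le_max_left _ _)).trans hX
  have hX3 : 3 ≤ X := (le_max_right _ _).trans hX
  have hX3r : (3 : ℝ) ≤ X := by exact_mod_cast hX3
  have hX0 : (0 : ℝ) < X := by linarith
  have hlog0 : 0 < Real.log X := Real.log_pos (by linarith)
  set L := (Icc 1 ⌊Real.log X / 2⌋₊).filter
        (fun l : ℕ => l.Prime ∧ Real.log X ^ κ < (l : ℝ)) with hL
  have hLp : ∀ l ∈ L, l.Prime ∧ Real.log X ^ κ < (l : ℝ) ∧ l ≤ ⌊Real.log X / 2⌋₊ := by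
    intro l hl
    rw [hL, mem_filter, mem_Icc] at hl
    exact ⟨hl.2.1, hl.2.2, hl.1.2⟩
  set U := (Icc 1 X).filter Nat.Prime with hU
  obtain ⟨b, hb⟩ := greedy U L (fun l hl => (hLp l hl).1.pos)
  have hm := hX₁ X hXX₁
  refine ⟨U.filter (fun p => ¬ ∀ l ∈ L, ¬ p ≡ b l [MOD l]), ?_, ?_, ?_⟩
  · intro p hp
    rw [mem_filter, hU, mem_filter, mem_Icc] at hp
    exact ⟨hp.1.2, hp.1.1.2⟩
  · have h1 := Finset.card_filter_add_card_filter_not (s := U)
      (fun p => ∀ l ∈ L, ¬ p ≡ b l [MOD l])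
    have h2 : (U.card : ℝ) = (U.filter (fun p => ∀ l ∈ L, ¬ p ≡ b l [MOD l])).card +
        (U.filter (fun p => ¬ ∀ l ∈ L, ¬ p ≡ b l [MOD l])).card := by exact_mod_cast h1.symm
    have h3 : (∏ l ∈ L, (1 - 1 / (l : ℝ))) * U.card ≤ (κ + η) * U.card := by gcongr
    linarith
  · -- the integers
    set Q := ∏ l ∈ L, l with hQ
    have hQ0 : 0 < Q := Finset.prod_pos fun l hl => (hLp l hl).1.pos
    have hpp : Set.Pairwise (L : Set ℕ) (Function.onFun Nat.Coprime (fun l : ℕ => l)) := by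
      intro l hl l' hl' hne
      exact (Nat.coprime_primes (hLp l hl).1 (hLp l' hl').1).2 hne
    obtain ⟨n₀, hn₀⟩ := Nat.chineseRemainderOfFinset b (fun l : ℕ => l) L
      (fun l hl => (hLp l hl).1.ne_zero) hpp
    have hQle : (Q : ℝ) ≤ (X : ℝ) ^ (7 / 10 : ℝ) := by
      have h1 : Q ≤ primorial ⌊Real.log X / 2⌋₊ := by
        rw [hQ, primorial]
        apply Finset.prod_le_prod_of_subset_of_one_le'
        · intro l hl
          have := hLp l hl
          rw [mem_filter, mem_range]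
          exact ⟨by omega, this.1⟩
        · intro l hl _
          exact (mem_filter.1 hl).2.pos
      have h2 : Q ≤ 4 ^ ⌊Real.log X / 2⌋₊ := h1.trans (primorial_le_four_pow _)
      calc (Q : ℝ) ≤ (4 : ℝ) ^ ⌊Real.log X / 2⌋₊ := by exact_mod_cast h2
        _ = (4 : ℝ) ^ ((⌊Real.log X / 2⌋₊ : ℕ) : ℝ) := (Real.rpow_natCast _ _).symm
        _ ≤ (4 : ℝ) ^ (Real.log X / 2) := by
            apply Real.rpow_le_rpow_of_exponent_le (by norm_num)
            exact Nat.floor_le (by positivity)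
        _ = Real.exp (Real.log 4 * (Real.log X / 2)) := Real.rpow_def_of_pos (by norm_num) _
        _ ≤ Real.exp (Real.log X * (7 / 10)) := by
            apply Real.exp_le_exp.2
            have h3 : Real.log 4 = 2 * Real.log 2 := by
              rw [show (4 : ℝ) = 2 ^ 2 by norm_num, Real.log_pow]
              norm_num
            have h4 := Real.log_two_lt_d9
            rw [h3]
            nlinarith
        _ = (X : ℝ) ^ (7 / 10 : ℝ) := (Real.rpow_def_of_pos hX0 _).symm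
    set k := 2 * X / Q with hk
    refine ⟨(range k).image (fun j => n₀ % Q + j * Q), ?_, ?_⟩
    · rw [Finset.card_image_of_injective, card_range]
      · have h1 : (X : ℝ) ^ (3 / 10 : ℝ) * Q ≤ X := by
          calc (X : ℝ) ^ (3 / 10 : ℝ) * Q ≤ (X : ℝ) ^ (3 / 10 : ℝ) * (X : ℝ) ^ (7 / 10 : ℝ) := by
                gcongr
            _ = X := by
                rw [← Real.rpow_add hX0]
                norm_num
        have h2 : (1 : ℝ) ≤ (X : ℝ) ^ (3 / 10 : ℝ) := Real.one_le_rpow (by linarith) (by norm_num)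
        have hQr : (0 : ℝ) < Q := by exact_mod_cast hQ0
        have h3 : 2 * X < (k + 1) * Q := by
          rw [hk]
          exact Nat.lt_mul_of_div_lt (Nat.lt_succ_self _) hQ0
        have h4 : (2 : ℝ) * X < (k + 1) * Q := by exact_mod_cast h3
        by_contra hlt
        rw [not_le] at hlt
        have h5 : ((k : ℝ) + 1) * Q ≤ 2 * (X : ℝ) ^ (3 / 10 : ℝ) * Q := by
          gcongr
          linarith
        linarith
      · intro i j hij
        simp only at hij
        have h5 : i * Q = j * Q := by omega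
        exact Nat.eq_of_mul_eq_mul_right hQ0 h5
    · intro n hn
      rw [mem_image] at hn
      obtain ⟨j, hj, rfl⟩ := hn
      rw [mem_range] at hj
      constructor
      · have h1 := Nat.mod_lt n₀ hQ0
        have h2 : (j + 1) * Q ≤ k * Q := Nat.mul_le_mul_right _ hj
        have h3 : k * Q ≤ 2 * X := Nat.div_mul_le_self _ _
        have h4 : (j + 1) * Q = j * Q + Q := by ring
        omega
      · rintro p hp ⟨hpn, m, s, e1, e2, hs0, e5⟩
        rw [mem_filter] at hp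
        obtain ⟨hpU, hpl⟩ := hp
        push Not at hpl
        obtain ⟨l, hl, hpl⟩ := hpl
        obtain ⟨hlp, hl1, hl2⟩ := hLp l hl
        have hlQ : l ∣ Q := Finset.dvd_prod_of_mem _ hl
        have hnl : n₀ % Q + j * Q ≡ b l [MOD l] := by
          have h1 : n₀ % Q + j * Q ≡ n₀ [MOD Q] := by
            unfold Nat.ModEq
            simp
          exact (h1.of_dvd hlQ).trans (hn₀ l hl)
        have hd : l ∣ (((n₀ % Q + j * Q : ℕ) : ℤ) - (p : ℤ)).natAbs := by
          have h2 : p ≡ n₀ % Q + j * Q [MOD l] := hpl.trans hnl.symm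
          exact Int.natCast_dvd.1 h2.dvd
        rw [e1] at hd
        have hm0 : m ≠ 0 := by
          rintro rfl
          rw [zero_mul, Int.natAbs_eq_zero] at e1
          apply hpn
          omega
        rcases (hlp.dvd_mul).1 hd with h | h
        · have h1 : l ≤ m := Nat.le_of_dvd (Nat.pos_of_ne_zero hm0) h
          have h2 : (l : ℝ) ≤ m := by exact_mod_cast h1
          linarith
        · have h1 := e5 l (Nat.mem_primeFactors.2 ⟨hlp, h, hs0⟩)
          have h2 : (l : ℝ) ≤ Real.log X / 2 :=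
            le_trans (Nat.cast_le.2 hl2) (Nat.floor_le (by positivity))
          have h3 := hX₂ X hXX₂
          linarith

end Pool.Agent.W23.PL
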