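import Pool.Agent.W23.PL.Fin3
import Pool.Agent.W23.PL.Fin4
import Pool.Agent.W23.PL.Cou
import Pool.Agent.W23.DC.All
import Pool.Agent.W308.PL.FLW
import Pool.Agent.W249.PL.COR
import Pool.Agent.W655.PL.PBX
import Pool.Agent.W655.PL.VLB
import Pool.Agent.W462.PL.COSP
import Pool.Agent.W372.PL.OFD
import Pool.Agent.W500.PL.BXB
import Pool.Agent.W826.PL.FIX
import Pool.Agent.W586.PL.BX0
import Pool.Agent.W366.PL.UBS
import Pool.Agent.W214.PL.SMO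

/-!
PL project (helper23): assembly.
-/

namespace Pool.Agent.W23.PL

open Finset
open Pool.Agent.H442R2
open Pool.Agent.W23.DC

theorem COU_thm : St_COU := COU BX.CO_thm COF_thm
theorem TTC_thm : St_TTC := W462.PL.TTC COU_thm BX.RC BX.GS
theorem OFD_thm : St_OFD := W372.PL.OFD TTC_thm BX.RC BX.RB
theorem COR_thm : St_COR := W249.PL.COR BX.GS
theorem BXB_thm : St_BXB := W500.PL.BXB W308.PL.FLW COR_thm W655.PL.PBX OFD_thm W655.PL.VLB BX.DU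
  (BX.PR BX.PB_thm BX.RT) W586.DC.WXS BX.GS
theorem FIX_thm : St_FIX := W826.PL.FIX BXB_thm
theorem BX0_thm : St_BX0 := W586.PL.BX0 W308.PL.FLW COR_thm W655.PL.VLB BX.DU W586.DC.WXS BX.GS
  BX.GW_thm
theorem UBS_thm : St_UBS := W366.PL.UBS W655.PL.VLB
theorem SMO_thm : St_SMO := W214.PL.SMO UBS_thm W655.PL.VLB

open Classical in
/-- the main theorem -/
theorem dense_sharp (δ : ℝ) (hδ : 0 < δ) :
    ∃ (c C : ℝ) (K : ℕ), 0 < c ∧ ∀ X : ℕ, 3 ≤ X → ∀ A : Finset ℕ,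
      (∀ p ∈ A, p.Prime ∧ p ≤ X) → δ * X / Real.log X ≤ A.card →
      (((Icc (-(2 * X : ℤ)) (2 * X)).filter (fun N : ℤ =>
        ((A.filter (fun p => Good A N X K p)).card : ℝ) <
          c * (Real.log (Real.log X) / Real.log X) * A.card)).card : ℝ) ≤
        C * (Real.log X / Real.log (Real.log X)) :=
  main_X W52.DC.PT W120.DC.LN W586.DC.ER W505.DC.MI MT_thm W378.DC.MP W378.DC.FA W120.DC.NU
    W366.DC.SFX FIX_thm BX0_thm W655.PL.VLB SMO_thm δ hδ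

/-- sharpness of the number of exceptions -/
theorem sharp1_thm (K : ℕ) (η : ℝ) (hη : 0 < η) :
    ∃ (c' : ℝ) (X₀ : ℕ), 0 < c' ∧ ∀ X : ℕ, X₀ ≤ X → ∀ H : Finset ℤ,
      (∀ N ∈ H, N ≠ 0 ∧ |N| ≤ 2 * X) → (H.card : ℝ) ≤ c' * (Real.log X / Real.log (Real.log X)) →
      ∃ A : Finset ℕ, (∀ p ∈ A, p.Prime ∧ p ≤ X) ∧
        (((Icc 1 X).filter Nat.Prime).card : ℝ) - A.card ≤ η * (X / Real.log X) ∧
        ∀ N ∈ H, ∀ p, ¬ Good A N X K p :=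
  sharp1 UBS_thm W655.PL.VLB K η hη

/-- sharpness of the size of the small factor -/
theorem sharp2_thm (κ η : ℝ) (hκ : 0 < κ) (hκ1 : κ < 1) (hη : 0 < η) :
    ∃ X₀ : ℕ, ∀ X : ℕ, X₀ ≤ X → ∃ A : Finset ℕ, (∀ p ∈ A, p.Prime ∧ p ≤ X) ∧
      (1 - κ - η) * ((Icc 1 X).filter Nat.Prime).card ≤ A.card ∧
      ∃ H : Finset ℕ, (X : ℝ) ^ (3 / 10 : ℝ) ≤ H.card ∧ ∀ n ∈ H, n ≤ 2 * X ∧
        ∀ p ∈ A, ¬ ((p : ℤ) ≠ n ∧ ∃ m s : ℕ, ((n : ℤ) - (p : ℤ)).natAbs = m * s ∧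
          (m : ℝ) ≤ Real.log X ^ κ ∧ s ≠ 0 ∧
          ∀ q ∈ s.primeFactors, (X : ℝ) ^ (1 / 7 : ℝ) < q) :=
  sharp2 W378.DC.MP κ η hκ hκ1 hη

end Pool.Agent.W23.PL
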