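import Pool.Agent.W23.PL.Fin2

/-!
PL project (helper23): the final form, and the sharpness of the number of exceptions.
-/

namespace Pool.Agent.W23.PL

open Finset Filter
open Pool.Agent.H442R2
open Pool.Agent.H442R2.KF
open Pool.Agent.W23.DC

/-- `p ∈ A`, `p ≠ N`, `|N - p| = m s`, `m ≤ (log X)^K`, `s` a product of one or two primes larger
than `X^(1/7)` -/
def Good (A : Finset ℕ) (N : ℤ) (X K : ℕ) (p : ℕ) : Prop :=
  p ∈ A ∧ (p : ℤ) ≠ N ∧ ∃ m s : ℕ, (N - (p : ℤ)).natAbs = m * s ∧ (m : ℝ) ≤ Real.log X ^ K ∧ 1 < s ∧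
    s.primeFactorsList.length ≤ 2 ∧ ∀ q ∈ s.primeFactors, (X : ℝ) ^ (1 / 7 : ℝ) < q

open Classical in
/-- the theorem in terms of `X` -/
theorem main_X (hPT : St_PT) (hLN : St_LN) (hER : St_ER) (hMI : St_MI) (hMT : St_MT)
    (hMP : St_MP) (hFA : St_FA) (hNU : St_NU) (hSFX : St_SFX) (hFIX : St_FIX) (hBX0 : St_BX0)
    (hVLB : St_VLB) (hSMO : St_SMO) (δ : ℝ) (hδ : 0 < δ) :
    ∃ (c C : ℝ) (K : ℕ), 0 < c ∧ ∀ X : ℕ, 3 ≤ X → ∀ A : Finset ℕ,
      (∀ p ∈ A, p.Prime ∧ p ≤ X) → δ * X / Real.log X ≤ A.card →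
      (((Icc (-(2 * X : ℤ)) (2 * X)).filter (fun N : ℤ =>
        ((A.filter (fun p => Good A N X K p)).card : ℝ) <
          c * (Real.log (Real.log X) / Real.log X) * A.card)).card : ℝ) ≤
        C * (Real.log X / Real.log (Real.log X)) := by
  obtain ⟨c, C, K, N₀, hc, hC, H⟩ := main_N hPT hLN hER hMI hMT hMP hFA hNU hSFX hFIX hBX0 hVLB
    hSMO (δ / 3) (by positivity)
  refine ⟨c / 2, max (2 * C + 1) (4 * (N₀ + 9) + 1), 2 * K, by positivity, ?_⟩
  intro X hX A hA hAc
  have hX3 : (3 : ℝ) ≤ X := by exact_mod_cast hX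
  have hX0 : (0 : ℝ) < X := by linarith
  have hL1 : 1 < Real.log X := by
    rw [Real.lt_log_iff_exp_lt hX0]
    exact Real.exp_one_lt_three.trans_le hX3
  have hL : 0 < Real.log X := by linarith
  have hLL : 0 < Real.log (Real.log X) := Real.log_pos hL1
  have hq1 : 1 ≤ Real.log X / Real.log (Real.log X) := by
    rw [le_div_iff₀ hLL, one_mul]
    have := Real.log_le_sub_one_of_pos hL
    linarith
  rcases lt_or_ge X (N₀ + 9) with hlt | hge
  · have h4 := Finset.card_filter_le (Icc (-(2 * X : ℤ)) (2 * X)) (fun N : ℤ =>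
        ((A.filter (fun p => Good A N X (2 * K) p)).card : ℝ) <
          c / 2 * (Real.log (Real.log X) / Real.log X) * A.card)
    rw [Int.card_Icc] at h4
    have h5 : (2 * (X : ℤ) + 1 - -(2 * (X : ℤ))).toNat ≤ 4 * (N₀ + 9) + 1 := by omega
    have h6 : (((Icc (-(2 * X : ℤ)) (2 * X)).filter (fun N : ℤ =>
        ((A.filter (fun p => Good A N X (2 * K) p)).card : ℝ) <
          c / 2 * (Real.log (Real.log X) / Real.log X) * A.card)).card : ℝ) ≤
        4 * (N₀ + 9) + 1 := by exact_mod_cast h4.trans h5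
    calc _ ≤ 4 * ((N₀ : ℝ) + 9) + 1 := h6
      _ ≤ max (2 * C + 1) (4 * (N₀ + 9) + 1) * 1 := by rw [mul_one]; exact le_max_right _ _
      _ ≤ _ := by gcongr
  · have hX8 : (8 : ℝ) ≤ X := by exact_mod_cast (by omega : 8 ≤ X)
    have hlog3 : Real.log ((3 * X : ℕ) : ℝ) = Real.log 3 + Real.log X := by
      push_cast
      rw [Real.log_mul (by norm_num) hX0.ne']
    have h3X : Real.log 3 ≤ Real.log X := Real.log_le_log (by norm_num) hX3
    have h30 : 0 < Real.log 3 := Real.log_pos (by norm_num)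
    have hL3 : Real.log ((3 * X : ℕ) : ℝ) ≤ 2 * Real.log X := by rw [hlog3]; linarith
    have hL3' : Real.log X ≤ Real.log ((3 * X : ℕ) : ℝ) := by rw [hlog3]; linarith
    have hL30 : 0 < Real.log ((3 * X : ℕ) : ℝ) := by linarith
    have hLL3 : Real.log (Real.log X) ≤ Real.log (Real.log ((3 * X : ℕ) : ℝ)) :=
      Real.log_le_log hL hL3'
    have hLL30 : 0 < Real.log (Real.log ((3 * X : ℕ) : ℝ)) := by linarith
    have hAc2 : δ / 3 * (((3 * X : ℕ) : ℝ) / Real.log ((3 * X : ℕ) : ℝ)) ≤ A.card := by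
      refine le_trans ?_ hAc
      calc δ / 3 * (((3 * X : ℕ) : ℝ) / Real.log ((3 * X : ℕ) : ℝ)) =
            δ * X / Real.log ((3 * X : ℕ) : ℝ) := by push_cast; ring
        _ ≤ δ * X / Real.log X := div_le_div_of_nonneg_left (by positivity) hL hL3'
    set S := (Icc (-(2 * X : ℤ)) (2 * X)).filter (fun N : ℤ =>
        ((A.filter (fun p => Good A N X (2 * K) p)).card : ℝ) <
          c / 2 * (Real.log (Real.log X) / Real.log X) * A.card) with hS
    have key := H (3 * X) (by omega) A (fun p hp => ⟨(hA p hp).1, by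
      have := (hA p hp).2
      omega⟩) hAc2 (S.erase 0) (by
      intro a ha
      rw [mem_erase] at ha
      obtain ⟨ha0, haS⟩ := ha
      rw [hS, mem_filter, mem_Icc] at haS
      obtain ⟨hab, hac⟩ := haS
      refine ⟨ha0, ?_, ?_⟩
      · have h1 : |(a : ℝ)| ≤ 2 * X := by
          rw [abs_le]
          constructor
          · exact_mod_cast hab.1
          · exact_mod_cast hab.2
        have h2 : ((3 * X : ℕ) : ℝ) ^ (1 / 2 : ℝ) ≤ X := by
          rw [← Real.sqrt_eq_rpow]
          rw [Real.sqrt_le_left hX0.le]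
          push_cast
          nlinarith
        refine h1.trans ?_
        push_cast at h2 ⊢
        linarith
      · refine lt_of_le_of_lt ?_ (lt_of_lt_of_le hac ?_)
        · have hsub : (A.filter (fun p : ℕ =>
              (p : ℤ) ≠ a ∧ ∃ m s : ℕ, (a - p).natAbs = m * s ∧
                (m : ℝ) ≤ Real.log ((3 * X : ℕ) : ℝ) ^ K ∧ 1 < s ∧
                s.primeFactorsList.length ≤ 2 ∧
                ∀ q ∈ s.primeFactors, ((3 * X : ℕ) : ℝ) ^ (1 / 7 : ℝ) ≤ q)) ⊆
              (A.filter (fun p => Good A a X (2 * K) p)) := by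
            intro p hp
            rw [mem_filter] at hp ⊢
            obtain ⟨hpA, hpa, m, s, h1, h2, h3, h4, h5⟩ := hp
            refine ⟨hpA, hpA, hpa, m, s, h1, h2.trans ?_, h3, h4,
              fun q hq => lt_of_lt_of_le ?_ (h5 q hq)⟩
            · rw [pow_mul]
              apply pow_le_pow_left₀ hL30.le
              have h6 : 2 ≤ Real.log X := by
                have h7 : Real.log 8 ≤ Real.log X := Real.log_le_log (by norm_num) hX8
                have h8 : Real.log 8 = 3 * Real.log 2 := by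
                  rw [show (8 : ℝ) = 2 ^ 3 by norm_num, Real.log_pow]
                  norm_num
                have h9 := Real.log_two_gt_d9
                linarith
              nlinarith
            · push_cast
              exact Real.rpow_lt_rpow hX0.le (by linarith) (by norm_num)
          exact_mod_cast Finset.card_le_card hsub
        · have h1 : c / 2 * (Real.log (Real.log X) / Real.log X) ≤
              c * (Real.log (Real.log ((3 * X : ℕ) : ℝ)) / Real.log ((3 * X : ℕ) : ℝ)) := by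
            rw [div_mul_div_comm, ← mul_div_assoc, div_le_div_iff₀ (by positivity) hL30]
            calc c * Real.log (Real.log X) * Real.log ((3 * X : ℕ) : ℝ)
                ≤ c * Real.log (Real.log ((3 * X : ℕ) : ℝ)) * (2 * Real.log X) := by gcongr
              _ = _ := by ring
          gcongr)
    have h7 : (S.card : ℝ) ≤ (S.erase 0).card + 1 := by
      have h9 := Finset.pred_card_le_card_erase (s := S) (a := (0 : ℤ))
      have h10 : S.card ≤ (S.erase 0).card + 1 := by omega
      exact_mod_cast h10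
    have h8 : C * (Real.log ((3 * X : ℕ) : ℝ) / Real.log (Real.log ((3 * X : ℕ) : ℝ))) ≤
        2 * C * (Real.log X / Real.log (Real.log X)) := by
      rw [← mul_div_assoc, ← mul_div_assoc, div_le_div_iff₀ hLL30 hLL]
      calc C * Real.log ((3 * X : ℕ) : ℝ) * Real.log (Real.log X)
          ≤ C * (2 * Real.log X) * Real.log (Real.log ((3 * X : ℕ) : ℝ)) := by gcongr
        _ = _ := by ring
    calc (S.card : ℝ) ≤ 2 * C * (Real.log X / Real.log (Real.log X)) + 1 := by linarith
      _ ≤ 2 * C * (Real.log X / Real.log (Real.log X)) +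
          1 * (Real.log X / Real.log (Real.log X)) := by linarith
      _ = (2 * C + 1) * (Real.log X / Real.log (Real.log X)) := by ring
      _ ≤ _ := by
          gcongr
          exact le_max_left _ _

open Classical in
/-- **sharpness of the number of exceptions** -/
theorem sharp1 (hUBS : St_UBS) (hVLB : St_VLB) (K : ℕ) (η : ℝ) (hη : 0 < η) :
    ∃ (c' : ℝ) (X₀ : ℕ), 0 < c' ∧ ∀ X : ℕ, X₀ ≤ X → ∀ H : Finset ℤ,
      (∀ N ∈ H, N ≠ 0 ∧ |N| ≤ 2 * X) → (H.card : ℝ) ≤ c' * (Real.log X / Real.log (Real.log X)) →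
      ∃ A : Finset ℕ, (∀ p ∈ A, p.Prime ∧ p ≤ X) ∧
        (((Icc 1 X).filter Nat.Prime).card : ℝ) - A.card ≤ η * (X / Real.log X) ∧
        ∀ N ∈ H, ∀ p, ¬ Good A N X K p := by
  obtain ⟨C, N₁, hC, hU⟩ := hUBS (K + 2) (by omega) (1 / 8) (by norm_num) (by norm_num)
  obtain ⟨c₂, hc₂, hV⟩ := hVLB
  obtain ⟨N₂, hN₂⟩ := hV (K + 2) (by omega) (1 / 8) (by norm_num) (by norm_num)
  set M : ℝ := C * (1 / c₂ * (8 * (K + 2))) with hM
  have hM0 : 0 < M := by positivity
  refine ⟨η / (4 * M), max (max N₁ N₂) 200, by positivity, ?_⟩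
  intro X hX H hH hHc
  have hXN₁ : N₁ ≤ X := ((le_max_left _ _).trans (le_max_left _ _)).trans hX
  have hXN₂ : N₂ ≤ X := ((le_max_right _ _).trans (le_max_left _ _)).trans hX
  have hX200 : 200 ≤ X := (le_max_right _ _).trans hX
  have hX2 : (200 : ℝ) ≤ X := by exact_mod_cast hX200
  have hX0 : (0 : ℝ) < X := by linarith
  have hL1 : 1 < Real.log X := by
    rw [Real.lt_log_iff_exp_lt hX0]
    exact Real.exp_one_lt_three.trans_le (by linarith)
  have hL : 0 < Real.log X := by linarith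
  have hLL : 0 < Real.log (Real.log X) := Real.log_pos hL1
  -- `2X`
  have hlog2 : Real.log ((2 * X : ℕ) : ℝ) = Real.log 2 + Real.log X := by
    push_cast
    rw [Real.log_mul (by norm_num) hX0.ne']
  have h20 : 0 < Real.log 2 := Real.log_pos (by norm_num)
  have h2L : Real.log X ≤ Real.log ((2 * X : ℕ) : ℝ) := by rw [hlog2]; linarith
  have h2L0 : 0 < Real.log ((2 * X : ℕ) : ℝ) := by linarith
  have h2L1 : 1 < Real.log ((2 * X : ℕ) : ℝ) := by linarith
  have hLLu : Real.log (Real.log ((2 * X : ℕ) : ℝ)) ≤ 2 * Real.log (Real.log X) := by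
    have h1 : Real.log ((2 * X : ℕ) : ℝ) ≤ Real.log X ^ 2 := by
      have h3 : Real.log 2 < 1 := by
        have := Real.log_two_lt_d9
        linarith
      have h4 : 2 ≤ Real.log X := by
        have h7 : Real.log 8 ≤ Real.log X := Real.log_le_log (by norm_num) (by linarith)
        have h8 : Real.log 8 = 3 * Real.log 2 := by
          rw [show (8 : ℝ) = 2 ^ 3 by norm_num, Real.log_pow]
          norm_num
        have h9 := Real.log_two_gt_d9
        linarith
      rw [hlog2]
      nlinarith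
    calc Real.log (Real.log ((2 * X : ℕ) : ℝ)) ≤ Real.log (Real.log X ^ 2) :=
          Real.log_le_log h2L0 h1
      _ = 2 * Real.log (Real.log X) := by
          rw [Real.log_pow]
          norm_num
  -- the removed primes
  set G : ℤ → Finset ℕ := fun a => (Icc 1 (2 * X)).filter (fun p : ℕ => p.Prime ∧
    ((1 : ℕ) : ℤ) ∣ a - p ∧ xx (P1 (2 * X) (K + 2) (1 / 8)) (p - a) = 1) with hG
  have hGc : ∀ a ∈ H, ((G a).card : ℝ) ≤ 4 * M * (X / Real.log X) *
      (Real.log (Real.log X) / Real.log X) := by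
    intro a ha
    have h1 := hU (2 * X) (by omega) a (hH a ha).1 (by
      have h2 := (hH a ha).2
      have h3 : ((|a| : ℤ) : ℝ) ≤ ((2 * X : ℤ) : ℝ) := by exact_mod_cast h2
      push_cast at h3 ⊢
      exact h3) 1 le_rfl (by
        push_cast
        exact Real.one_le_rpow (by linarith) (by norm_num)) (by simp)
    have h4 := (hN₂ (2 * X) (by omega)).2
    have h5 : ((G a).card : ℝ) ≤ C * (((2 * X : ℕ) : ℝ) / Real.log ((2 * X : ℕ) : ℝ)) *
        VV (P1 (2 * X) (K + 2) (1 / 8)) := by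
      have h6 : ((Nat.totient 1 : ℕ) : ℝ) = 1 := by simp
      rw [h6, one_mul] at h1
      convert h1 using 2
    refine h5.trans ?_
    calc C * (((2 * X : ℕ) : ℝ) / Real.log ((2 * X : ℕ) : ℝ)) * VV (P1 (2 * X) (K + 2) (1 / 8))
        ≤ C * (((2 * X : ℕ) : ℝ) / Real.log ((2 * X : ℕ) : ℝ)) *
          (1 / c₂ * (((K + 2 : ℕ) : ℝ) * Real.log (Real.log ((2 * X : ℕ) : ℝ)) /
            (1 / 8 * Real.log ((2 * X : ℕ) : ℝ)))) := by gcongr
      _ = M * (((2 * X : ℕ) : ℝ) / Real.log ((2 * X : ℕ) : ℝ)) *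
          (Real.log (Real.log ((2 * X : ℕ) : ℝ)) / Real.log ((2 * X : ℕ) : ℝ)) := by
          rw [hM]
          push_cast
          field_simp
      _ ≤ M * (2 * X / Real.log X) * (2 * Real.log (Real.log X) / Real.log X) := by
          have h2LL0 : 0 < Real.log (Real.log ((2 * X : ℕ) : ℝ)) := Real.log_pos h2L1
          push_cast at h2L hLLu h2L0 h2LL0 ⊢
          gcongr
      _ = _ := by ring
  refine ⟨((Icc 1 X).filter Nat.Prime).filter (fun p => ∀ a ∈ H, p ∉ G a), ?_, ?_, ?_⟩
  · intro p hp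
    rw [mem_filter, mem_filter, mem_Icc] at hp
    exact ⟨hp.1.2, hp.1.1.2⟩
  · have h1 := Finset.card_filter_add_card_filter_not (s := (Icc 1 X).filter Nat.Prime)
      (fun p => ∀ a ∈ H, p ∉ G a)
    have h2 : (((Icc 1 X).filter Nat.Prime).filter (fun p => ¬ ∀ a ∈ H, p ∉ G a)).card ≤
        ∑ a ∈ H, (G a).card := by
      refine (Finset.card_le_card ?_).trans Finset.card_biUnion_le
      intro p hp
      rw [mem_filter] at hp
      rw [mem_biUnion]
      by_contra hcon
      exact hp.2 (fun a ha hpa => hcon ⟨a, ha, hpa⟩)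
    have h3 : (∑ a ∈ H, ((G a).card : ℝ)) ≤ η * (X / Real.log X) := by
      calc (∑ a ∈ H, ((G a).card : ℝ)) ≤ ∑ _a ∈ H, 4 * M * (X / Real.log X) *
            (Real.log (Real.log X) / Real.log X) := Finset.sum_le_sum hGc
        _ = H.card * (4 * M * (X / Real.log X) * (Real.log (Real.log X) / Real.log X)) := by
            rw [Finset.sum_const, nsmul_eq_mul]
        _ ≤ (η / (4 * M) * (Real.log X / Real.log (Real.log X))) *
            (4 * M * (X / Real.log X) * (Real.log (Real.log X) / Real.log X)) := by gcongr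
        _ = η * (X / Real.log X) := by
            field_simp
    have h4 : (((Icc 1 X).filter Nat.Prime).card : ℝ) =
        (((Icc 1 X).filter Nat.Prime).filter (fun p => ∀ a ∈ H, p ∉ G a)).card +
        (((Icc 1 X).filter Nat.Prime).filter (fun p => ¬ ∀ a ∈ H, p ∉ G a)).card := by
      exact_mod_cast h1.symm
    have h5 : ((((Icc 1 X).filter Nat.Prime).filter (fun p => ¬ ∀ a ∈ H, p ∉ G a)).card : ℝ) ≤
        ∑ a ∈ H, ((G a).card : ℝ) := by exact_mod_cast h2
    linarith
  · rintro a ha p ⟨hpA, hpa, m, s, e1, e2, e3, e4, e5⟩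
    rw [mem_filter, mem_filter, mem_Icc] at hpA
    apply hpA.2 a ha
    rw [hG]
    simp only
    rw [mem_filter, mem_Icc]
    refine ⟨⟨hpA.1.1.1, by have := hpA.1.1.2; omega⟩, hpA.1.2, by simp, ?_⟩
    unfold xx
    rw [if_pos]
    intro l hl hld
    obtain ⟨⟨hl1, hl2⟩, hlp, hl3, hl4⟩ := mem_P1.1 hl
    have hln : l ∣ m * s := by
      rw [← e1]
      have h1 : (l : ℤ) ∣ a - (p : ℤ) := by
        rw [← neg_sub]
        exact (dvd_neg).2 hld
      exact Int.natCast_dvd.1 h1
    have hm0 : m ≠ 0 := by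
      rintro rfl
      rw [zero_mul, Int.natAbs_eq_zero] at e1
      omega
    rcases (hlp.dvd_mul).1 hln with h | h
    · have h1 : l ≤ m := Nat.le_of_dvd (Nat.pos_of_ne_zero hm0) h
      have h2 : (l : ℝ) ≤ Real.log X ^ K := le_trans (by exact_mod_cast h1) e2
      have h3 : Real.log X ^ K < Real.log ((2 * X : ℕ) : ℝ) ^ (K + 2) := by
        calc Real.log X ^ K ≤ Real.log ((2 * X : ℕ) : ℝ) ^ K := pow_le_pow_left₀ hL.le h2L K
          _ < Real.log ((2 * X : ℕ) : ℝ) ^ (K + 2) := pow_lt_pow_right₀ h2L1 (by omega)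
      linarith
    · have h1 := e5 l (Nat.mem_primeFactors.2 ⟨hlp, h, by omega⟩)
      have h2 := (tt_lt_iff (by omega : 2 ≤ 2 * X) hlp.pos _).1 hl4
      have h3 : ((2 * X : ℕ) : ℝ) ^ (1 / 8 : ℝ) ≤ (X : ℝ) ^ (1 / 7 : ℝ) := by
        push_cast
        calc (2 * (X : ℝ)) ^ (1 / 8 : ℝ) ≤ ((X : ℝ) ^ (8 / 7 : ℝ)) ^ (1 / 8 : ℝ) := by
              apply Real.rpow_le_rpow (by positivity) _ (by norm_num)
              have h4 : (X : ℝ) ^ (8 / 7 : ℝ) = (X : ℝ) ^ (1 / 7 : ℝ) * X := by
                nth_rewrite 3 [← Real.rpow_one (X : ℝ)]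
                rw [← Real.rpow_add hX0]
                norm_num
              rw [h4]
              have h5 : (2 : ℝ) ≤ (X : ℝ) ^ (1 / 7 : ℝ) := by
                calc (2 : ℝ) = ((2 : ℝ) ^ (7 : ℝ)) ^ (1 / 7 : ℝ) := by
                      rw [← Real.rpow_mul (by norm_num)]
                      norm_num
                  _ ≤ _ := by
                      apply Real.rpow_le_rpow (by positivity) _ (by norm_num)
                      norm_num
                      linarith
              gcongr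
          _ = (X : ℝ) ^ (1 / 7 : ℝ) := by
              rw [← Real.rpow_mul hX0.le]
              norm_num
      linarith

end Pool.Agent.W23.PL
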